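import Pool.Agent.T2h83.US.Vec2

/-!
Project US (helper83): the product of the odd primes up to `y`.
-/

set_option autoImplicit false

namespace Pool.Agent.T2h83.US

open Finset
open Pool.Agent.H373R2.T7 (ev_L' ev_log')
open Pool.Agent.Y877.SX (primorial_le_log)

/-- the product of the odd primes up to `y` -/
def oddP (y : ℕ) : ℕ := ∏ p ∈ (Icc 3 y).filter Nat.Prime, p

lemma primorial_odd (y : ℕ) (hy : 2 ≤ y) : primorial y = 2 * oddP y := by
  unfold primorial oddP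
  have h1 : (range (y + 1)).filter Nat.Prime = insert 2 ((Icc 3 y).filter Nat.Prime) := by
    ext p
    rw [mem_insert, mem_filter, mem_filter, mem_range, mem_Icc]
    constructor
    · rintro ⟨h1, h2⟩
      have := h2.two_le
      rcases Nat.eq_or_lt_of_le this with h4 | h4
      · exact Or.inl h4.symm
      · exact Or.inr ⟨⟨h4, by omega⟩, h2⟩
    · rintro (rfl | ⟨⟨h1, h2⟩, h3⟩)
      · exact ⟨by omega, Nat.prime_two⟩
      · exact ⟨by omega, h3⟩
  rw [h1, prod_insert]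
  intro h2
  rw [mem_filter, mem_Icc] at h2
  omega

lemma oddP_pos (y : ℕ) : 1 ≤ oddP y := by
  unfold oddP
  apply Nat.one_le_iff_ne_zero.2
  rw [prod_ne_zero_iff]
  intro p hp
  exact (mem_filter.1 hp).2.ne_zero

lemma oddP_odd (y : ℕ) : ¬ 2 ∣ oddP y := by
  unfold oddP
  intro h
  rw [Prime.dvd_finset_prod_iff Nat.prime_two.prime] at h
  obtain ⟨p, hp, h2⟩ := h
  rw [mem_filter, mem_Icc] at hp
  have := (Nat.prime_dvd_prime_iff_eq Nat.prime_two hp.2).1 h2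
  omega

lemma dvd_oddP (y l : ℕ) (hl : l.Prime) (h3 : 3 ≤ l) (hy : l ≤ y) : l ∣ oddP y := by
  unfold oddP
  exact dvd_prod_of_mem _ (mem_filter.2 ⟨mem_Icc.2 ⟨h3, hy⟩, hl⟩)

/-- the local conditions for the forms `2 ^ j p + oddP y` -/
lemma loc_odd (y j l s : ℕ) (hj : 1 ≤ j) (hl : l.Prime) (hly : l ≤ y) (hs : s.Prime) (hys : y < s) :
    ¬ l ∣ 2 ^ j * s + oddP y := by
  intro hd
  rcases Nat.eq_or_lt_of_le hl.two_le with h2 | h2
  · subst h2
    have h3 : 2 ∣ 2 ^ j * s := (dvd_pow_self 2 (by omega)).mul_right _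
    exact oddP_odd y ((Nat.dvd_add_right h3).1 hd)
  · have h3 := dvd_oddP y l hl h2 hly
    have h4 : l ∣ 2 ^ j * s := (Nat.dvd_add_left h3).1 hd
    rcases hl.dvd_mul.1 h4 with h5 | h5
    · have h6 := (Nat.prime_dvd_prime_iff_eq hl Nat.prime_two).1 (hl.dvd_of_dvd_pow h5)
      omega
    · have h6 := (Nat.prime_dvd_prime_iff_eq hl hs).1 h5
      omega

/-- the condition on the class -/
lemma cls_odd (y p r : ℕ) (hy : 2 ≤ y) (h : p ∣ 2 * r + 1) : p ∣ primorial y * r + oddP y := by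
  rw [primorial_odd y hy]
  have : 2 * oddP y * r + oddP y = oddP y * (2 * r + 1) := by ring
  rw [this]
  exact h.mul_left _

/-- sizes: `2 ≤ y`, `oddP y ≤ x` -/
lemma sizes (K₁ D : ℕ) : ∃ x₀ : ℕ, ∀ x : ℕ, x₀ ≤ x → ∀ y : ℕ, Real.log (Real.log x) ≤ y →
    (y : ℝ) ≤ K₁ * Real.log (Real.log x) → D ≤ y ∧ oddP y ≤ x := by
  obtain ⟨x₁, h1⟩ := ev_L' (Real.exp 1 + Real.exp (D + 2))
  obtain ⟨x₂, h2⟩ := ev_log' (2 * K₁) 1
  refine ⟨x₁ + x₂ + 1, fun x hx y hy1 hy2 => ?_⟩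
  have a1 := h1 x (by omega)
  have a2 := h2 x (by omega)
  have hxr : (1 : ℝ) ≤ x := by exact_mod_cast (by omega : 1 ≤ x)
  have hx0 : (0 : ℝ) < x := by linarith
  obtain ⟨L, hLd⟩ : ∃ L, L = Real.log (x : ℝ) := ⟨_, rfl⟩
  rw [← hLd] at a1 a2 hy1 hy2
  have e1 : 0 < Real.exp 1 := Real.exp_pos _
  have e2 : 0 < Real.exp ((D : ℝ) + 2) := Real.exp_pos _
  have hLD : (D : ℝ) + 2 ≤ Real.log L := by
    rw [← Real.log_exp ((D : ℝ) + 2)]
    exact Real.log_le_log e2 (by linarith)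
  have hy : D + 2 ≤ y := by
    have : (D : ℝ) + 2 ≤ y := hLD.trans hy1
    exact_mod_cast this
  refine ⟨by omega, ?_⟩
  have h3 := primorial_le_log K₁ y L (by linarith) hy2
  have h4 : (oddP y : ℝ) ≤ x := by
    have h5 : oddP y ≤ primorial y := by
      rw [primorial_odd y (by omega)]
      omega
    have h6 : (oddP y : ℝ) ≤ primorial y := by exact_mod_cast h5
    rw [one_mul] at a2
    have h7 : √(x : ℝ) ≤ x := by
      rw [Real.sqrt_le_left hx0.le]
      nlinarith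
    linarith
  exact_mod_cast h4

end Pool.Agent.T2h83.US
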