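import Pool.Agent.T2h83.UP.Rough
import Pool.Agent.Y877.SxE

/-!
Project US (helper83): assembly: primes among the numbers `F g s`, `s` in a given set, for almost all `g`.
-/

set_option autoImplicit false

namespace Pool.Agent.T2h83.US

open Finset
open Pool.Agent.T2h83.UP (VP VP_pos Vm_le_VP)
open Pool.Agent.H373R2.T7 (Vz pz mem_pz Vz_pos Vz_le_one lamz)
open Pool.Agent.Y877.SX (mid mem_mid Vm Vm_pos Vm_le Vz_split)

open Classical in
lemma asmF (S P : Finset ℕ) (y z J Y : ℕ) (F : ℕ → ℕ → ℕ) (δ m R : ℝ) (hδ : 0 < δ) (hm : (S.card : ℝ) = m) (hm0 : 0 < m)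
    (hyz : y ≤ z) (hPm : P ⊆ mid y z)
    (hlam : ∀ g ∈ Icc 1 J, ∀ s ∈ S, lamz z (F g s) = if ∀ p ∈ P, ¬ p ∣ F g s then (Vz z)⁻¹ else 0)
    (hFY : ∀ g ∈ Icc 1 J, ∀ s ∈ S, F g s ≤ Y)
    (hrough : (((Icc 1 J).filter (fun g => ((S.filter (fun s => ∀ p ∈ P, ¬ p ∣ F g s)).card : ℝ) <
      (1 - δ) * (m * VP P))).card : ℝ) ≤ δ * J)
    (hbil : ∑ v ∈ range (J + 1), |∑ s ∈ S, (ArithmeticFunction.vonMangoldt (F v s) - lamz z (F v s))| ≤ R)
    (hR : R ≤ (δ * J) * (δ * m))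
    (hpp : ∀ g ∈ Icc 1 J, ∑ s ∈ S, (if (F g s).Prime then (0 : ℝ) else ArithmeticFunction.vonMangoldt (F g s)) ≤ δ * m) :
    (((Icc 1 J).filter (fun g => ((S.filter (fun s => (F g s).Prime)).card : ℝ) *
      Real.log (Y : ℝ) < (1 - 3 * δ) * (m * (Vz y)⁻¹))).card : ℝ) ≤ 2 * δ * J := by
  have hδm : 0 < δ * m := by positivity
  have hVy := Vz_pos y
  have hVz := Vz_pos z
  have hVm := Vm_pos y z
  have hVy1 : 1 ≤ (Vz y)⁻¹ := by
    rw [one_le_inv₀ hVy]
    exact Vz_le_one y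
  have hsplit := Vz_split y z hyz
  have hVP : Vm y z ≤ VP P := Vm_le_VP P y z hPm
  have hVP0 : 0 < VP P := hVm.trans_le hVP
  have hVV : (Vz y)⁻¹ ≤ (Vz z)⁻¹ * VP P := by
    rw [hsplit, mul_inv]
    calc (Vz y)⁻¹ = (Vz y)⁻¹ * ((Vm y z)⁻¹ * Vm y z) := by rw [inv_mul_cancel₀ hVm.ne', mul_one]
      _ ≤ (Vz y)⁻¹ * ((Vm y z)⁻¹ * VP P) := by gcongr
      _ = _ := by ring
  obtain ⟨cX, hcX⟩ : ∃ cX : ℕ → ℝ, ∀ g, cX g = ((S.filter (fun s => ∀ p ∈ P, ¬ p ∣ F g s)).card : ℝ) :=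
    ⟨_, fun _ => rfl⟩
  obtain ⟨T, hT⟩ : ∃ T : ℕ → ℝ, ∀ g, T g = ∑ s ∈ S, ArithmeticFunction.vonMangoldt (F g s) := ⟨_, fun _ => rfl⟩
  set B1 := (Icc 1 J).filter (fun g => cX g < (1 - δ) * (m * VP P)) with hB1
  set B2 := (Icc 1 J).filter (fun g => (1 - δ) * (m * VP P) ≤ cX g ∧ T g < (1 - 2 * δ) * (m * (Vz y)⁻¹)) with hB2
  have c1 : (B1.card : ℝ) ≤ δ * J := by
    have : B1 = (Icc 1 J).filter (fun g => ((S.filter (fun s => ∀ p ∈ P, ¬ p ∣ F g s)).card : ℝ) <
      (1 - δ) * (m * VP P)) := by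
      rw [hB1]
      ext g
      rw [mem_filter, mem_filter, hcX]
    rw [this]
    exact hrough
  have c2 : (B2.card : ℝ) ≤ δ * J := by
    have h1 : ∀ g ∈ B2, δ * m ≤ |∑ s ∈ S, (ArithmeticFunction.vonMangoldt (F g s) - lamz z (F g s))| := by
      intro g hg
      rw [hB2, mem_filter] at hg
      obtain ⟨hgJ, h2, h3⟩ := hg
      rw [sum_sub_distrib, ← hT]
      have h4 : ∑ s ∈ S, lamz z (F g s) = (Vz z)⁻¹ * cX g := by
        rw [sum_congr rfl (hlam g hgJ), ← sum_filter, sum_const, nsmul_eq_mul, hcX, mul_comm]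
      rw [h4]
      have h6 : (Vz z)⁻¹ * ((1 - δ) * (m * VP P)) ≤ (Vz z)⁻¹ * cX g := mul_le_mul_of_nonneg_left h2 (inv_pos.2 hVz).le
      rw [abs_sub_comm]
      refine le_trans ?_ (le_abs_self _)
      by_cases hδ1 : δ ≤ 1
      · have h5 : (1 - δ) * (m * (Vz y)⁻¹) ≤ (Vz z)⁻¹ * ((1 - δ) * (m * VP P)) := by
          calc (1 - δ) * (m * (Vz y)⁻¹) ≤ (1 - δ) * (m * ((Vz z)⁻¹ * VP P)) := by
                apply mul_le_mul_of_nonneg_left _ (by linarith)
                exact mul_le_mul_of_nonneg_left hVV hm0.le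
            _ = _ := by ring
        have h7 : δ * m * 1 ≤ δ * m * (Vz y)⁻¹ := mul_le_mul_of_nonneg_left hVy1 hδm.le
        nlinarith
      · rw [not_le] at hδ1
        exfalso
        have h7 : (1 - 2 * δ) * (m * (Vz y)⁻¹) ≤ 0 :=
          mul_nonpos_of_nonpos_of_nonneg (by linarith) (by positivity)
        have h8 : 0 ≤ T g := by
          rw [hT]
          exact sum_nonneg fun _ _ => ArithmeticFunction.vonMangoldt_nonneg
        linarith
    have h2 : (B2.card : ℝ) * (δ * m) ≤ (δ * J) * (δ * m) := by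
      refine le_trans ?_ hR
      refine le_trans ?_ hbil
      calc (B2.card : ℝ) * (δ * m) = ∑ _g ∈ B2, δ * m := by rw [sum_const, nsmul_eq_mul]
        _ ≤ ∑ g ∈ B2, |∑ s ∈ S, (ArithmeticFunction.vonMangoldt (F g s) - lamz z (F g s))| := sum_le_sum h1
        _ ≤ _ := by
            apply sum_le_sum_of_subset_of_nonneg _ (fun _ _ _ => abs_nonneg _)
            intro g hg
            rw [hB2, mem_filter, mem_Icc] at hg
            rw [mem_range]
            omega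
    exact le_of_mul_le_mul_right h2 hδm
  have hsub : (Icc 1 J).filter (fun g => ((S.filter (fun s => (F g s).Prime)).card : ℝ) *
      Real.log (Y : ℝ) < (1 - 3 * δ) * (m * (Vz y)⁻¹)) ⊆ B1 ∪ B2 := by
    intro g hg
    rw [mem_filter] at hg
    obtain ⟨hg, hlt⟩ := hg
    by_contra hcon
    rw [mem_union] at hcon
    push Not at hcon
    obtain ⟨n1, n2⟩ := hcon
    have q1 : (1 - δ) * (m * VP P) ≤ cX g := by
      by_contra h
      push Not at h
      exact n1 (mem_filter.2 ⟨hg, h⟩)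
    have q2 : (1 - 2 * δ) * (m * (Vz y)⁻¹) ≤ T g := by
      by_contra h
      push Not at h
      exact n2 (mem_filter.2 ⟨hg, q1, h⟩)
    have q3 := hpp g hg
    have q4 : T g ≤ ((S.filter (fun s => (F g s).Prime)).card : ℝ) * Real.log (Y : ℝ) +
        ∑ s ∈ S, (if (F g s).Prime then (0 : ℝ) else ArithmeticFunction.vonMangoldt (F g s)) := by
      rw [hT, card_eq_sum_ones, Nat.cast_sum, sum_mul, sum_filter, ← sum_add_distrib]
      apply sum_le_sum
      intro s hs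
      by_cases hp : (F g s).Prime
      · rw [if_pos hp, if_pos hp, ArithmeticFunction.vonMangoldt_apply_prime hp, Nat.cast_one, one_mul, add_zero]
        apply Real.log_le_log (by exact_mod_cast hp.pos)
        exact_mod_cast hFY g hg s hs
      · rw [if_neg hp, if_neg hp, zero_add]
    have q5 : δ * m * 1 ≤ δ * m * (Vz y)⁻¹ := mul_le_mul_of_nonneg_left hVy1 hδm.le
    nlinarith
  have h1 := card_le_card hsub
  have h2 : (B1 ∪ B2).card ≤ B1.card + B2.card := card_union_le _ _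
  have h3 : (((Icc 1 J).filter (fun g => ((S.filter (fun s => (F g s).Prime)).card : ℝ) *
      Real.log (Y : ℝ) < (1 - 3 * δ) * (m * (Vz y)⁻¹))).card : ℝ) ≤ B1.card + B2.card := by
    exact_mod_cast h1.trans h2
  linarith

/-- prime powers among the values of a linear form -/
lemma pp_lin (Y c h : ℕ) (hc : 1 ≤ c) (hY : 1 ≤ Y) (S : Finset ℕ) (hS : ∀ s ∈ S, 1 ≤ s ∧ c * s + h ≤ Y) :
    ∑ s ∈ S, (if (c * s + h).Prime then (0 : ℝ) else ArithmeticFunction.vonMangoldt (c * s + h)) ≤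
      2 * √(Y : ℝ) * Real.log (Y : ℝ) := by
  have h2 := Chebyshev.psi_sub_theta_le (x := (Y : ℝ)) (by exact_mod_cast hY)
  rw [Chebyshev.psi_sub_theta_eq_sum_not_prime, Nat.floor_natCast, sum_filter] at h2
  refine le_trans ?_ h2
  have e1 : ∑ s ∈ S, (if (c * s + h).Prime then (0 : ℝ) else ArithmeticFunction.vonMangoldt (c * s + h)) =
      ∑ n ∈ S.image (fun s => c * s + h), (if ¬ n.Prime then ArithmeticFunction.vonMangoldt n else (0 : ℝ)) := by
    rw [sum_image]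
    · apply sum_congr rfl
      intro s _
      by_cases hp : (c * s + h).Prime
      · rw [if_pos hp, if_neg (not_not.2 hp)]
      · rw [if_neg hp, if_pos hp]
    · intro a ha b hb hab
      simp only at hab
      exact Nat.eq_of_mul_eq_mul_left (by omega : 0 < c) (by omega)
  rw [e1]
  apply sum_le_sum_of_subset_of_nonneg
  · intro n hn
    rw [mem_image] at hn
    obtain ⟨s, hs, rfl⟩ := hn
    have h3 := hS s hs
    have h4 : 1 ≤ c * s := Nat.mul_pos (by omega) (by omega)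
    rw [mem_Ioc]
    omega
  · intro n _ _
    split_ifs
    · exact le_rfl
    · exact ArithmeticFunction.vonMangoldt_nonneg

/-- an inverse of `c` modulo the elements of a set of primes -/
lemma inv_ex (c : ℕ) (P : Finset ℕ) (hP : ∀ p ∈ P, p.Prime ∧ ¬ p ∣ c) : ∃ b : ℕ, ∀ p ∈ P, ¬ p ∣ b ∧
    ∀ s h : ℕ, p ∣ s + b * h ↔ p ∣ c * s + h := by
  have h1 : ∃ b : ℕ, ∀ p ∈ P, c * b ≡ 1 [MOD p] := by
    have hcop : Nat.Coprime c (∏ p ∈ P, p) := by
      apply Nat.Coprime.prod_right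
      intro p hp
      exact ((Nat.Prime.coprime_iff_not_dvd (hP p hp).1).2 (hP p hp).2).symm
    have hne : (∏ p ∈ P, p) ≠ 0 := by
      rw [prod_ne_zero_iff]
      exact fun p hp => (hP p hp).1.ne_zero
    obtain ⟨b, -, hb⟩ := Nat.exists_mul_mod_eq_of_coprime 1 hcop hne
    refine ⟨b, fun p hp => ?_⟩
    have h2 : c * b ≡ 1 [MOD ∏ p ∈ P, p] := by
      exact hb
    exact h2.of_dvd (dvd_prod_of_mem _ hp)
  obtain ⟨b, hb⟩ := h1
  refine ⟨b, fun p hp => ?_⟩
  have hpp := (hP p hp).1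
  have h2 := hb p hp
  have hpb : ¬ p ∣ b := by
    intro hd
    have h3 : c * b ≡ 0 [MOD p] := (Nat.modEq_zero_iff_dvd).2 (hd.mul_left c)
    have h4 : (1 : ℕ) ≡ 0 [MOD p] := h2.symm.trans h3
    rw [Nat.modEq_zero_iff_dvd] at h4
    exact hpp.one_lt.ne' (Nat.dvd_one.1 h4)
  refine ⟨hpb, fun s h => ?_⟩
  have h5 : b * (c * s + h) ≡ s + b * h [MOD p] := by
    have e1 : b * (c * s + h) = (c * b) * s + b * h := by ring
    rw [e1]
    have e2 : (c * b) * s ≡ 1 * s [MOD p] := h2.mul_right s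
    rw [one_mul] at e2
    exact e2.add_right _
  constructor
  · intro h6
    have h7 : p ∣ b * (c * s + h) := (h5.dvd_iff (dvd_refl p)).2 h6
    exact (hpp.dvd_mul.1 h7).resolve_left hpb
  · intro h6
    exact (h5.dvd_iff (dvd_refl p)).1 (h6.mul_left b)

end Pool.Agent.T2h83.US
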