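import Mathlib

/-!
Project US (helper83): the passage from one shift to vectors of shifts.
-/

set_option autoImplicit false

namespace Pool.Agent.T2h83.US

open Finset

open Classical in
lemma fib {α β : Type*} (Bad : Finset α) (B : Finset β) (f : α → β) (hf : ∀ a ∈ Bad, f a ∈ B) (p : β → Prop)
    (F₁ F₂ : ℝ) (h20 : 0 ≤ F₂)
    (h1 : ∀ b ∈ B, p b → ∀ Fb : Finset α, Fb ⊆ Bad → (∀ a ∈ Fb, f a = b) → (Fb.card : ℝ) ≤ F₁)
    (h2 : ∀ b ∈ B, ¬ p b → ∀ Fb : Finset α, Fb ⊆ Bad → (∀ a ∈ Fb, f a = b) → (Fb.card : ℝ) ≤ F₂) :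
    (Bad.card : ℝ) ≤ ((B.filter p).card : ℝ) * F₁ + (B.card : ℝ) * F₂ := by
  rw [card_eq_sum_card_fiberwise (f := f) (t := B) (fun a ha => hf a ha)]
  push_cast
  rw [← sum_filter_add_sum_filter_not B p]
  apply add_le_add
  · calc ∑ b ∈ B.filter p, ((Bad.filter (fun a => f a = b)).card : ℝ) ≤ ∑ _b ∈ B.filter p, F₁ :=
          sum_le_sum fun b hb => h1 b (mem_filter.1 hb).1 (mem_filter.1 hb).2 _ (filter_subset _ _) fun a ha => (mem_filter.1 ha).2
      _ = _ := by rw [sum_const, nsmul_eq_mul]
  · calc ∑ b ∈ B.filter (fun b => ¬ p b), ((Bad.filter (fun a => f a = b)).card : ℝ) ≤ ∑ _b ∈ B.filter (fun b => ¬ p b), F₂ :=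
          sum_le_sum fun b hb => h2 b (mem_filter.1 hb).1 (mem_filter.1 hb).2 _ (filter_subset _ _) fun a ha => (mem_filter.1 ha).2
      _ = ((B.filter (fun b => ¬ p b)).card : ℝ) * F₂ := by rw [sum_const, nsmul_eq_mul]
      _ ≤ _ := by
          apply mul_le_mul_of_nonneg_right _ h20
          exact_mod_cast card_filter_le _ _

open Classical in
lemma vec_ind (η ρ τ : ℝ) (hη : 0 ≤ η) (hρ0 : 0 < ρ) (hρ1 : ρ ≤ 1) (S₀ : Finset ℕ) : ∀ (k : ℕ) (N : Fin k → Finset ℕ)
    (nb : Fin k → ℝ) (R : Fin k → ℕ → ℕ → Prop), (∀ i, ((N i).card : ℝ) ≤ nb i) →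
    (∀ i, ∀ T ⊆ S₀, τ ≤ T.card → (((N i).filter (fun n => ((T.filter (fun s => R i n s)).card : ℝ) < ρ * T.card)).card : ℝ) ≤
      η * nb i) → ∀ T ⊆ S₀, τ ≤ ρ ^ k * T.card →
    (((Fintype.piFinset N).filter (fun n => ((T.filter (fun s => ∀ i, R i (n i) s)).card : ℝ) < ρ ^ k * T.card)).card : ℝ) ≤
      k * η * ∏ i, nb i := by
  intro k
  induction k with
  | zero =>
    intro N nb R hN hstep T hT hτ
    have : (Fintype.piFinset N).filter (fun n => ((T.filter (fun s => ∀ i, R i (n i) s)).card : ℝ) < ρ ^ 0 * T.card) = ∅ := by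
      rw [filter_eq_empty_iff]
      intro n _
      rw [filter_true_of_mem (fun s _ i => i.elim0)]
      simp
    rw [this]
    simp
  | succ k ih =>
    intro N nb R hN hstep T hT hτ
    obtain ⟨Bad, hBad⟩ : ∃ Bad, Bad = (Fintype.piFinset N).filter
      (fun n => ((T.filter (fun s => ∀ i, R i (n i) s)).card : ℝ) < ρ ^ (k + 1) * T.card) := ⟨_, rfl⟩
    rw [← hBad]
    have hnb : ∀ i, 0 ≤ nb i := fun i => le_trans (Nat.cast_nonneg _) (hN i)
    have hTc : (0 : ℝ) ≤ T.card := Nat.cast_nonneg _
    obtain ⟨Pt, hPt⟩ : ∃ Pt, Pt = ∏ i : Fin k, nb i.succ := ⟨_, rfl⟩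
    have hPt0 : 0 ≤ Pt := by rw [hPt]; exact prod_nonneg fun _ _ => hnb _
    have hprod : ∏ i, nb i = nb 0 * Pt := by rw [Fin.prod_univ_succ, hPt]
    have key := fib Bad (N 0) (fun n => n 0) (fun n hn => by
      rw [hBad, mem_filter, Fintype.mem_piFinset] at hn
      exact hn.1 0) (fun n₀ => ((T.filter (fun s => R 0 n₀ s)).card : ℝ) < ρ * T.card) Pt (k * η * Pt)
      (by positivity) (fun n₀ _ _ Fb hFb hFn => ?_) (fun n₀ hn₀ hp Fb hFb hFn => ?_)
    · refine key.trans ?_
      have h1 := hstep 0 T hT (hτ.trans (mul_le_of_le_one_left hTc (pow_le_one₀ hρ0.le hρ1)))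
      rw [hprod]
      push_cast
      calc (((N 0).filter (fun n₀ => ((T.filter (fun s => R 0 n₀ s)).card : ℝ) < ρ * T.card)).card : ℝ) * Pt +
            ((N 0).card : ℝ) * (k * η * Pt) ≤ (η * nb 0) * Pt + nb 0 * (k * η * Pt) := by
            apply add_le_add (mul_le_mul_of_nonneg_right h1 hPt0)
            exact mul_le_mul_of_nonneg_right (hN 0) (by positivity)
        _ = _ := by ring
    · -- the trivial bound
      have h1 : Fb.card ≤ (Fintype.piFinset (fun i : Fin k => N i.succ)).card := by
        apply card_le_card_of_injOn (fun n i => n i.succ)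
        · intro n hn
          rw [mem_coe] at hn
          have hn1 := hFb hn
          rw [hBad, mem_filter, Fintype.mem_piFinset] at hn1
          rw [mem_coe, Fintype.mem_piFinset]
          exact fun i => hn1.1 i.succ
        · intro n hn n' hn' h
          rw [mem_coe] at hn hn'
          funext i
          refine Fin.cases ?_ (fun j => ?_) i
          · exact (hFn n hn).trans (hFn n' hn').symm
          · exact congrFun h j
      have h2 : (Fb.card : ℝ) ≤ ∏ i : Fin k, ((N i.succ).card : ℝ) := by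
        rw [Fintype.card_piFinset] at h1
        exact_mod_cast h1
      refine h2.trans ?_
      rw [hPt]
      exact prod_le_prod (fun _ _ => Nat.cast_nonneg _) (fun i _ => hN i.succ)
    · -- induction
      obtain ⟨T', hT'⟩ : ∃ T', T' = T.filter (fun s => R 0 n₀ s) := ⟨_, rfl⟩
      rw [← hT', not_lt] at hp
      have h1 := ih (fun i => N i.succ) (fun i => nb i.succ) (fun i => R i.succ) (fun i => hN i.succ) (fun i => hstep i.succ)
        T' (by rw [hT']; exact (filter_subset _ _).trans hT) (by
          refine hτ.trans ?_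
          rw [pow_succ, mul_assoc]
          exact mul_le_mul_of_nonneg_left hp (by positivity))
      rw [hPt]
      refine le_trans ?_ h1
      have h2 : Fb.card ≤ ((Fintype.piFinset (fun i : Fin k => N i.succ)).filter
          (fun n => ((T'.filter (fun s => ∀ i, R i.succ (n i) s)).card : ℝ) < ρ ^ k * T'.card)).card := by
        apply card_le_card_of_injOn (fun n i => n i.succ)
        · intro n hn
          rw [mem_coe] at hn
          have hn3 : n 0 = n₀ := hFn n hn
          have hn := hFb hn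
          rw [hBad, mem_filter, Fintype.mem_piFinset] at hn
          obtain ⟨hn1, hn2⟩ := hn
          rw [mem_coe, mem_filter, Fintype.mem_piFinset]
          refine ⟨fun i => hn1 i.succ, ?_⟩
          have h3 : T'.filter (fun s => ∀ i : Fin k, R i.succ (n i.succ) s) = T.filter (fun s => ∀ i, R i (n i) s) := by
            ext s
            rw [mem_filter, hT', mem_filter, mem_filter, Fin.forall_fin_succ, hn3]
            tauto
          rw [h3]
          refine hn2.trans_le ?_
          rw [pow_succ, mul_assoc]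
          exact mul_le_mul_of_nonneg_left hp (by positivity)
        · intro n hn n' hn' h
          rw [mem_coe] at hn hn'
          funext i
          refine Fin.cases ?_ (fun j => ?_) i
          · exact (hFn n hn).trans (hFn n' hn').symm
          · exact congrFun h j
      exact_mod_cast h2

open Classical in
lemma vec_exact (η ρ τ : ℝ) (hη : 0 ≤ η) (hη1 : η ≤ 1) (hρ0 : 0 < ρ) (hρ1 : ρ ≤ 1) (S₀ : Finset ℕ) (k : ℕ) (N : Fin (k + 1) → Finset ℕ)
    (nb : Fin (k + 1) → ℝ) (R : Fin (k + 1) → ℕ → ℕ → Prop) (hN : ∀ i, ((N i).card : ℝ) ≤ nb i)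
    (hstep : ∀ i, ∀ T ⊆ S₀, τ ≤ T.card → (((N i).filter (fun n => ((T.filter (fun s => R i n s)).card : ℝ) < ρ * T.card)).card : ℝ) ≤
      η * nb i)
    (hlast : ∀ T ⊆ S₀, τ ≤ T.card → (((N (Fin.last k)).filter (fun n => η * T.card <
      ((T.filter (fun s => R (Fin.last k) n s)).card : ℝ))).card : ℝ) ≤ η * nb (Fin.last k))
    (T : Finset ℕ) (hT : T ⊆ S₀) (hτ : τ ≤ ρ ^ k * T.card) :
    (((Fintype.piFinset N).filter (fun n => ((T.filter (fun s => (∀ i : Fin k, R i.castSucc (n i.castSucc) s) ∧
      ¬ R (Fin.last k) (n (Fin.last k)) s)).card : ℝ) < (1 - η) * (ρ ^ k * T.card))).card : ℝ) ≤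
      (k + 1) * η * ∏ i, nb i := by
  obtain ⟨Bad, hBad⟩ : ∃ Bad, Bad = (Fintype.piFinset N).filter (fun n => ((T.filter (fun s =>
    (∀ i : Fin k, R i.castSucc (n i.castSucc) s) ∧ ¬ R (Fin.last k) (n (Fin.last k)) s)).card : ℝ) < (1 - η) * (ρ ^ k * T.card)) :=
    ⟨_, rfl⟩
  rw [← hBad]
  have hnb : ∀ i, 0 ≤ nb i := fun i => le_trans (Nat.cast_nonneg _) (hN i)
  obtain ⟨Pt, hPt⟩ : ∃ Pt, Pt = ∏ i : Fin k, nb i.castSucc := ⟨_, rfl⟩
  have hPt0 : 0 ≤ Pt := by rw [hPt]; exact prod_nonneg fun _ _ => hnb _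
  have hprod : ∏ i, nb i = Pt * nb (Fin.last k) := by rw [Fin.prod_univ_castSucc, hPt]
  have hnl := hnb (Fin.last k)
  have h0 := vec_ind η ρ τ hη hρ0 hρ1 S₀ k (fun i => N i.castSucc) (fun i => nb i.castSucc) (fun i => R i.castSucc)
    (fun i => hN i.castSucc) (fun i => hstep i.castSucc) T hT hτ
  have hcard : ((Fintype.piFinset (fun i : Fin k => N i.castSucc)).card : ℝ) ≤ Pt := by
    rw [Fintype.card_piFinset, hPt]
    push_cast
    exact prod_le_prod (fun _ _ => Nat.cast_nonneg _) (fun i _ => hN i.castSucc)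
  have key := fib Bad (Fintype.piFinset (fun i : Fin k => N i.castSucc)) (fun n i => n i.castSucc) (fun n hn => by
    rw [hBad, mem_filter, Fintype.mem_piFinset] at hn
    rw [Fintype.mem_piFinset]
    exact fun i => hn.1 i.castSucc)
    (fun m => ((T.filter (fun s => ∀ i : Fin k, R i.castSucc (m i) s)).card : ℝ) < ρ ^ k * T.card)
    (nb (Fin.last k)) (η * nb (Fin.last k)) (by positivity) (fun m _ _ Fb hFb hFn => ?_) (fun m hm hp Fb hFb hFn => ?_)
  · refine key.trans ?_
    rw [hprod]
    calc (((Fintype.piFinset (fun i : Fin k => N i.castSucc)).filter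
          (fun m => ((T.filter (fun s => ∀ i : Fin k, R i.castSucc (m i) s)).card : ℝ) < ρ ^ k * T.card)).card : ℝ) * nb (Fin.last k) +
          ((Fintype.piFinset (fun i : Fin k => N i.castSucc)).card : ℝ) * (η * nb (Fin.last k))
          ≤ (k * η * Pt) * nb (Fin.last k) + Pt * (η * nb (Fin.last k)) := by
          apply add_le_add
          · apply mul_le_mul_of_nonneg_right _ hnl
            rw [hPt]
            exact h0
          · exact mul_le_mul_of_nonneg_right hcard (by positivity)
      _ = _ := by ring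
  · have h1 : Fb.card ≤ (N (Fin.last k)).card := by
      apply card_le_card_of_injOn (fun n => n (Fin.last k))
      · intro n hn
        rw [mem_coe] at hn
        have hn1 := hFb hn
        rw [hBad, mem_filter, Fintype.mem_piFinset] at hn1
        exact hn1.1 _
      · intro n hn n' hn' h
        rw [mem_coe] at hn hn'
        funext i
        refine Fin.lastCases h (fun j => ?_) i
        have e1 := congrFun (hFn n hn) j
        have e2 := congrFun (hFn n' hn') j
        exact e1.trans e2.symm
    have h2 : (Fb.card : ℝ) ≤ ((N (Fin.last k)).card : ℝ) := by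
      exact_mod_cast h1
    exact h2.trans (hN _)
  · obtain ⟨T', hT'⟩ : ∃ T', T' = T.filter (fun s => ∀ i : Fin k, R i.castSucc (m i) s) := ⟨_, rfl⟩
    rw [← hT', not_lt] at hp
    have h1 := hlast T' (by rw [hT']; exact (filter_subset _ _).trans hT) (hτ.trans hp)
    refine le_trans ?_ h1
    have h2 : Fb.card ≤ ((N (Fin.last k)).filter (fun n => η * T'.card <
        ((T'.filter (fun s => R (Fin.last k) n s)).card : ℝ))).card := by
      apply card_le_card_of_injOn (fun n => n (Fin.last k))
      · intro n hn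
        rw [mem_coe] at hn
        have hn3 : (fun i : Fin k => n i.castSucc) = m := hFn n hn
        have hn := hFb hn
        rw [hBad, mem_filter, Fintype.mem_piFinset] at hn
        obtain ⟨hn1, hn2⟩ := hn
        rw [mem_coe, mem_filter]
        refine ⟨hn1 _, ?_⟩
        by_contra hcon
        rw [not_lt] at hcon
        apply absurd hn2
        rw [not_lt]
        have h3 : T.filter (fun s => (∀ i : Fin k, R i.castSucc (n i.castSucc) s) ∧ ¬ R (Fin.last k) (n (Fin.last k)) s) =
            T'.filter (fun s => ¬ R (Fin.last k) (n (Fin.last k)) s) := by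
          ext s
          rw [mem_filter, mem_filter, hT', mem_filter, ← hn3]
          tauto
        rw [h3]
        have h4 : ((T'.filter (fun s => R (Fin.last k) (n (Fin.last k)) s)).card : ℝ) +
            ((T'.filter (fun s => ¬ R (Fin.last k) (n (Fin.last k)) s)).card : ℝ) = T'.card := by
          exact_mod_cast card_filter_add_card_filter_not (s := T') (fun s => R (Fin.last k) (n (Fin.last k)) s)
        have h5 : (1 - η) * (ρ ^ k * T.card) ≤ (1 - η) * T'.card := mul_le_mul_of_nonneg_left hp (by linarith)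
        linarith
      · intro n hn n' hn' h
        rw [mem_coe] at hn hn'
        funext i
        refine Fin.lastCases h (fun j => ?_) i
        have e1 := congrFun (hFn n hn) j
        have e2 := congrFun (hFn n' hn') j
        exact e1.trans e2.symm
    exact_mod_cast h2

end Pool.Agent.T2h83.US
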