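import Pool.Agent.T2h83.US.Asm
import Pool.Agent.T2h83.UP.Diff
import Pool.Agent.T2h83.UP.Fin

/-!
Project US (helper83): for every set of primes and almost all shifts in the residue classes of almost all moduli the values of
a linear form at the primes of the set are often prime.
-/

set_option autoImplicit false

namespace Pool.Agent.T2h83.US

open Finset
open Pool.Agent.T2h83.UP (VP VP_pos Vm_le_VP rough univ)
open Pool.Agent.H373R2.T7 (Vz pz mem_pz Vz_pos Vz_le_one lamz ev_L' ev_log')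
open Pool.Agent.Y877.SX (mid mem_mid primorial_le_log)

lemma dvd_dist' (p s t w : ℕ) (h1 : p ∣ s + w) (h2 : p ∣ t + w) : p ∣ Nat.dist s t * (s + t) := by
  wlog hst : s ≤ t generalizing s t with H
  · have := H t s h2 h1 (by omega)
    rwa [Nat.dist_comm, add_comm t s] at this
  rw [Nat.dist_eq_sub_of_le hst]
  have h3 : p ∣ (t + w) - (s + w) := Nat.dvd_sub h2 h1
  have h4 : (t + w) - (s + w) = t - s := by omega
  rw [h4] at h3
  exact h3.mul_right _

open Classical in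
lemma lamz_shift (y z c s h : ℕ) (P : Finset ℕ) (hs : s.Prime) (hsz : z < s) (hP : P ⊆ mid y z)
    (hsmall : ∀ p : ℕ, p.Prime → p ≤ y → ¬ p ∣ c * s + h) (hc : ∀ p ∈ mid y z, ¬ p ∣ c)
    (hq : ∀ p ∈ mid y z, p ∉ P → p ∣ h) :
    lamz z (c * s + h) = if ∀ p ∈ P, ¬ p ∣ c * s + h then (Vz z)⁻¹ else 0 := by
  unfold lamz
  have : (∀ p ∈ pz z, ¬ p ∣ c * s + h) ↔ (∀ p ∈ P, ¬ p ∣ c * s + h) := by
    constructor
    · intro H p hp
      exact H p (mem_pz.2 (mem_mid.1 (hP hp)).2)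
    · intro H p hp hd
      by_cases hy : y < p
      · have hpm : p ∈ mid y z := mem_mid.2 ⟨hy, mem_pz.1 hp⟩
        by_cases hpP : p ∈ P
        · exact H p hpP hd
        · have h1 := hq p hpm hpP
          have h2 : p ∣ c * s := (Nat.dvd_add_left h1).1 hd
          have hpp := (mem_mid.1 hpm).2.2
          rcases hpp.dvd_mul.1 h2 with h3 | h3
          · exact hc p hpm h3
          · have h4 := (Nat.prime_dvd_prime_iff_eq hpp hs).1 h3
            have := (mem_mid.1 hpm).2.1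
            omega
      · exact hsmall p (mem_pz.1 hp).2 (by omega) hd
  by_cases h' : ∀ p ∈ P, ¬ p ∣ c * s + h
  · rw [if_pos h', if_pos (this.2 h')]
  · rw [if_neg h', if_neg (fun h2 => h' (this.1 h2))]

open Classical in
/-- **arbitrary sets of primes**, shifts in the residue classes of almost all moduli -/
theorem shf (C A W : ℕ) (ε : ℝ) (hε : 0 < ε) (hε1 : ε ≤ 1) : ∃ K₀ : ℕ, ∀ K₁ : ℕ, ∃ B x₀ : ℕ, ∀ x : ℕ, x₀ ≤ x →
    ∀ y : ℕ, K₀ * Real.log (Real.log x) ≤ y → (y : ℝ) ≤ K₁ * Real.log (Real.log x) →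
    ∀ Q : ℕ, (Q : ℝ) * Real.log x ^ B ≤ x →
    ∃ X : Finset ℕ, (X.card : ℝ) ≤ Q / Real.log x ^ W ∧ ∀ q ∈ Ioc Q (2 * Q), q ∉ X →
      ∀ c : ℕ, 1 ≤ c → c ≤ C → ∀ d : ℕ, d ≤ x → (∀ l s : ℕ, l.Prime → l ≤ y → s.Prime → y < s → ¬ l ∣ c * s + d) →
      ∀ r : ℕ, (∀ p : ℕ, p.Prime → y < p → (p : ℝ) ≤ Real.log x ^ B → p ∣ q → p ∣ primorial y * r + d) →
      ∀ S : Finset ℕ, S ⊆ Icc 1 x → (∀ s ∈ S, s.Prime) → (x : ℝ) ≤ S.card * Real.log x ^ A →
      (((Icc 1 x).filter (fun n => primorial y * n ≤ x ∧ n ≡ r [MOD q] ∧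
        ((S.filter (fun s => (c * s + (primorial y * n + d)).Prime)).card : ℝ) <
          (1 - ε) * (S.card / (Vz y * Real.log x)))).card : ℝ) ≤ ε * (x / (primorial y * q)) := by
  obtain ⟨δ, hδd⟩ : ∃ δ : ℝ, δ = ε / 16 := ⟨_, rfl⟩
  have hδ : 0 < δ := by rw [hδd]; linarith
  have hδ1 : 16 * δ ≤ 1 := by rw [hδd]; linarith
  obtain ⟨K0, hK01, hr⟩ := rough (A + 1) δ δ hδ (by linarith) hδ (by linarith)
  refine ⟨K0, fun K1 => ?_⟩
  obtain ⟨C', hC'⟩ : ∃ C', C' = C + 4 := ⟨_, rfl⟩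
  obtain ⟨B₁, hB₁⟩ := univ C' (W + 2 * K1) (A + 3)
  obtain ⟨T, x1, hx1⟩ := hr (B₁ + 3)
  obtain ⟨x2, hx2⟩ := hB₁ (B₁ + 3)
  obtain ⟨B, hB⟩ : ∃ B, B = B₁ + T + 2 * K1 + 6 := ⟨_, rfl⟩
  obtain ⟨x3, hx3⟩ := ev_L' (Real.exp 1 + K1 + 100 + 2 / δ ^ 2 + 4 / δ + Real.exp C + Real.log C' / δ + C')
  obtain ⟨x4, hx4⟩ := ev_log' (B₁ + A + 5) (4 * C' / δ)
  refine ⟨B, x1 + x2 + x3 + x4 + 3, fun x hx y hy1 hy2 Q hQ => ?_⟩
  have hL := hx3 x (by omega)
  have hL4 := hx4 x (by omega)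
  have a1 := hx1 x (by omega)
  have a2 := hx2 x (by omega)
  have hx1' : 1 ≤ x := by omega
  have hxr : (1 : ℝ) ≤ x := by exact_mod_cast hx1'
  have hx0 : (0 : ℝ) < x := by linarith
  obtain ⟨L, hLd⟩ : ∃ L, L = Real.log (x : ℝ) := ⟨_, rfl⟩
  rw [← hLd] at hL hL4 a1 a2 hy1 hy2 hQ ⊢
  have hd2 : 0 < 2 / δ ^ 2 := by positivity
  have hd1 : 0 < 4 / δ := by positivity
  have he : 0 < Real.exp 1 := Real.exp_pos 1
  have heC : 0 < Real.exp (C : ℝ) := Real.exp_pos _
  have hC'r : (4 : ℝ) ≤ C' := by exact_mod_cast (by omega : 4 ≤ C')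
  have hlC' : 0 ≤ Real.log (C' : ℝ) := Real.log_natCast_nonneg _
  have hlC'd : 0 ≤ Real.log (C' : ℝ) / δ := by positivity
  have hK1r : (0 : ℝ) ≤ K1 := Nat.cast_nonneg _
  have hLe : Real.exp 1 ≤ L := by linarith
  have hLK : (K1 : ℝ) ≤ L := by linarith
  have hL100 : 100 ≤ L := by linarith
  have hL0 : 0 < L := by linarith
  have hL1 : 1 ≤ L := by linarith
  have hLδ2 : 2 ≤ L * δ ^ 2 := by
    have : 2 / δ ^ 2 ≤ L := by linarith
    rwa [div_le_iff₀ (by positivity)] at this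
  have hLδ : 4 ≤ L * δ := by
    have : 4 / δ ≤ L := by linarith
    rwa [div_le_iff₀ hδ] at this
  have hLC' : Real.log (C' : ℝ) ≤ L * δ := by
    have : Real.log (C' : ℝ) / δ ≤ L := by linarith
    rwa [div_le_iff₀ hδ] at this
  have hlL : 1 ≤ Real.log L := by
    rw [← Real.log_exp 1]
    exact Real.log_le_log he hLe
  have hlLC : (C : ℝ) ≤ Real.log L := by
    rw [← Real.log_exp (C : ℝ)]
    exact Real.log_le_log heC (by linarith)
  have hyC : C ≤ y := by
    have h1 : (C : ℝ) ≤ y := by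
      refine le_trans ?_ hy1
      have : (1 : ℝ) ≤ K0 := by exact_mod_cast hK01
      nlinarith
    exact_mod_cast h1
  -- the primorial
  obtain ⟨M, hMd⟩ : ∃ M, M = primorial y := ⟨_, rfl⟩
  have hML : (M : ℝ) ≤ L ^ (2 * K1) := by rw [hMd]; exact primorial_le_log K1 y L hLe hy2
  have hM1 : 1 ≤ M := by rw [hMd]; exact primorial_pos y
  have hM0 : (0 : ℝ) < M := by exact_mod_cast hM1
  have hMp : ∀ p : ℕ, p.Prime → p ≤ y → p ∣ M := fun p hp hpy => by
    rw [hMd]
    exact hp.dvd_primorial_iff.2 hpy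
  rw [← hMd]
  -- z
  obtain ⟨z, hzd⟩ : ∃ z, z = ⌈L ^ (B₁ + 2)⌉₊ := ⟨_, rfl⟩
  have hz1 : L ^ (B₁ + 2) ≤ z := by rw [hzd]; exact Nat.le_ceil _
  have hz2 : (z : ℝ) ≤ L ^ (B₁ + 3) := by
    have h1 : (z : ℝ) < L ^ (B₁ + 2) + 1 := by rw [hzd]; exact Nat.ceil_lt_add_one (by positivity)
    have h2 : L ^ (B₁ + 3) = L ^ (B₁ + 2) * L := pow_succ _ _
    have h3 : 1 ≤ L ^ (B₁ + 2) := one_le_pow₀ hL1
    rw [h2]
    nlinarith
  have hyz : y ≤ z := by
    have hy3 : (y : ℝ) ≤ z := by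
      have h1 : Real.log L ≤ L := (Real.log_le_sub_one_of_pos hL0).trans (by linarith)
      calc (y : ℝ) ≤ K1 * Real.log L := hy2
        _ ≤ L * L := mul_le_mul hLK h1 (by linarith) hL0.le
        _ = L ^ 2 := by ring
        _ ≤ L ^ (B₁ + 2) := pow_le_pow_right₀ hL1 (by omega)
        _ ≤ z := hz1
    exact_mod_cast hy3
  -- the bad moduli
  obtain ⟨S'', s1, s2⟩ := a2 z ((pow_le_pow_right₀ hL1 (by omega)).trans hz1) hz2 (M * Q) (by
    push_cast
    calc (M : ℝ) * Q * L ^ B₁ ≤ L ^ (2 * K1) * Q * L ^ B₁ := by gcongr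
      _ = Q * L ^ (2 * K1 + B₁) := by rw [pow_add]; ring
      _ ≤ Q * L ^ B := by
          gcongr
          omega
      _ ≤ x := hQ)
  refine ⟨(Ioc Q (2 * Q)).filter (fun q => M * q ∈ S''), ?_, fun q hqQ hqX c hc hcC d hd hsmall r hr' S hS hSp hSc => ?_⟩
  · have e1 : (((Ioc Q (2 * Q)).filter (fun q => M * q ∈ S'')).card : ℝ) ≤ S''.card := by
      have : ((Ioc Q (2 * Q)).filter (fun q => M * q ∈ S'')).card ≤ S''.card := by
        apply card_le_card_of_injOn (fun q => M * q)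
        · intro q hq
          exact (mem_filter.1 (mem_coe.1 hq)).2
        · intro a _ b _ hab
          exact Nat.eq_of_mul_eq_mul_left hM1 hab
      exact_mod_cast this
    refine e1.trans (s1.trans ?_)
    push_cast
    rw [div_le_div_iff₀ (by positivity) (by positivity)]
    calc (M : ℝ) * Q * L ^ W ≤ L ^ (2 * K1) * Q * L ^ W := by gcongr
      _ = Q * L ^ (W + 2 * K1) := by rw [pow_add]; ring
  have hq1 : 1 ≤ q := by rw [mem_Ioc] at hqQ; omega
  have hq0 : (0 : ℝ) < q := by exact_mod_cast hq1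
  have hMq1 : 1 ≤ M * q := Nat.mul_pos hM1 hq1
  have hMqQ : M * q ∈ Ioc (M * Q) (2 * (M * Q)) := by
    rw [mem_Ioc] at hqQ ⊢
    constructor
    · exact Nat.mul_lt_mul_of_pos_left hqQ.1 hM1
    · calc M * q ≤ M * (2 * Q) := Nat.mul_le_mul_left _ hqQ.2
        _ = _ := by ring
  have hMqS : M * q ∉ S'' := fun h => hqX (mem_filter.2 ⟨hqQ, h⟩)
  -- sizes
  have hMqx : (M : ℝ) * q * L ^ (T + 5) ≤ x := by
    have h1 : (q : ℝ) ≤ 2 * Q := by exact_mod_cast (mem_Ioc.1 hqQ).2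
    calc (M : ℝ) * q * L ^ (T + 5) ≤ L ^ (2 * K1) * (2 * Q) * L ^ (T + 5) := by gcongr
      _ ≤ L ^ (2 * K1) * (L * Q) * L ^ (T + 5) := by gcongr; linarith
      _ = Q * L ^ (2 * K1 + T + 6) := by rw [show 2 * K1 + T + 6 = 2 * K1 + 1 + (T + 5) by ring, pow_add, pow_add]; ring
      _ ≤ Q * L ^ B := by
          gcongr
          omega
      _ ≤ x := hQ
  obtain ⟨J, hJ⟩ : ∃ J, J = x / (M * q) := ⟨_, rfl⟩
  have hJx : (J : ℝ) ≤ x / (M * q) := by
    rw [hJ]
    refine Nat.cast_div_le.trans (le_of_eq ?_)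
    push_cast
    rfl
  have hJL : L ^ (T + 4) ≤ J := by
    have h1 : (x : ℝ) < (M * q : ℕ) * ((J + 1 : ℕ) : ℝ) := by
      rw [hJ]
      exact_mod_cast Nat.lt_mul_div_succ x hMq1
    push_cast at h1
    have h2 : L ^ (T + 5) < (J : ℝ) + 1 := by
      by_contra hcon
      rw [not_lt] at hcon
      have : (M : ℝ) * q * (J + 1) ≤ M * q * L ^ (T + 5) := mul_le_mul_of_nonneg_left hcon (by positivity)
      linarith
    have h3 : L ^ (T + 5) = L ^ (T + 4) * L := pow_succ _ _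
    have h4 : 1 ≤ L ^ (T + 4) := one_le_pow₀ hL1
    nlinarith
  have hJ1 : (1 : ℝ) ≤ J := (one_le_pow₀ hL1).trans hJL
  have hJδ : 1 ≤ δ * J := by
    have : L ≤ J := by
      calc L = L ^ 1 := (pow_one _).symm
        _ ≤ L ^ (T + 4) := pow_le_pow_right₀ hL1 (by omega)
        _ ≤ J := hJL
    nlinarith
  -- the first member
  obtain ⟨n₁, hn₁⟩ : ∃ n₁, n₁ = r % q := ⟨_, rfl⟩
  have hmod : n₁ ≡ r [MOD q] := by
    rw [hn₁]
    exact Nat.mod_modEq _ _
  have hn₁lt : n₁ < q := by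
    rw [hn₁]
    exact Nat.mod_lt _ hq1
  have hMqJ : M * q * J ≤ x := by rw [hJ]; exact Nat.mul_div_le x (M * q)
  have hMqxN : M * q ≤ x := by
    have hJ1' : 1 ≤ J := by exact_mod_cast hJ1
    calc M * q = M * q * 1 := (mul_one _).symm
      _ ≤ M * q * J := Nat.mul_le_mul_left _ hJ1'
      _ ≤ x := hMqJ
  have hMn1 : M * n₁ ≤ x := (Nat.mul_le_mul_left M hn₁lt.le).trans hMqxN
  -- the set without its small elements
  obtain ⟨S', hS'⟩ : ∃ S', S' = S.filter (fun s => z < s) := ⟨_, rfl⟩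
  have hS'S : S' ⊆ S := by rw [hS']; exact filter_subset _ _
  have hSc1 : (S.card : ℝ) ≤ S'.card + z := by
    have h1 : S ⊆ S' ∪ Icc 1 z := by
      intro s hs
      rw [mem_union, hS', mem_filter, mem_Icc]
      by_cases h : z < s
      · exact Or.inl ⟨hs, h⟩
      · exact Or.inr ⟨(mem_Icc.1 (hS hs)).1, by omega⟩
    have h2 := (card_le_card h1).trans (card_union_le _ _)
    rw [Nat.card_Icc, Nat.add_sub_cancel] at h2
    exact_mod_cast h2
  have hzS : (z : ℝ) ≤ δ * S.card := by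
    -- `z L^A ≤ δ x`
    have h1 : 4 * C' / δ * L ^ (B₁ + A + 5) ≤ x := by
      refine hL4.trans ?_
      have : 1 ≤ √(x : ℝ) := by rw [← Real.sqrt_one]; exact Real.sqrt_le_sqrt hxr
      calc √(x : ℝ) = √(x : ℝ) * 1 := (mul_one _).symm
        _ ≤ √(x : ℝ) * √(x : ℝ) := by gcongr
        _ = x := Real.mul_self_sqrt hx0.le
    have h2 : z * L ^ A ≤ (δ * S.card) * L ^ A := by
      calc (z : ℝ) * L ^ A ≤ L ^ (B₁ + 3) * L ^ A := by gcongr
        _ = L ^ (B₁ + A + 3) := by rw [← pow_add]; congr 1; omega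
        _ ≤ L ^ (B₁ + A + 5) := pow_le_pow_right₀ hL1 (by omega)
        _ ≤ (4 * C') * L ^ (B₁ + A + 5) := by
            have : 0 ≤ L ^ (B₁ + A + 5) := by positivity
            nlinarith
        _ = δ * (4 * C' / δ * L ^ (B₁ + A + 5)) := by field_simp
        _ ≤ δ * x := by gcongr
        _ ≤ δ * (S.card * L ^ A) := by gcongr
        _ = _ := by ring
    exact le_of_mul_le_mul_right h2 (by positivity)
  obtain ⟨m, hm⟩ : ∃ m : ℝ, m = S'.card := ⟨_, rfl⟩
  have hmS : (1 - δ) * S.card ≤ m := by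
    rw [hm]
    linarith
  have hS0 : (0 : ℝ) < S.card := by
    by_contra h
    push Not at h
    have : (S.card : ℝ) * L ^ A ≤ 0 := mul_nonpos_of_nonpos_of_nonneg h (by positivity)
    linarith
  have hm0 : 0 < m := lt_of_lt_of_le (by
    apply mul_pos _ hS0
    linarith) hmS
  have hmx : (x : ℝ) ≤ m * L ^ (A + 1) := by
    calc (x : ℝ) ≤ S.card * L ^ A := hSc
      _ ≤ (2 * m) * L ^ A := by
          gcongr
          nlinarith
      _ ≤ (L * m) * L ^ A := by gcongr; linarith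
      _ = _ := by ring
  have hS'x : S' ⊆ Icc 1 x := hS'S.trans hS
  -- the sieving primes
  obtain ⟨P, hP⟩ : ∃ P, P = (mid y z).filter (fun p => ¬ p ∣ q) := ⟨_, rfl⟩
  have hPm : P ⊆ mid y z := by rw [hP]; exact filter_subset _ _
  have hmidc : ∀ p ∈ mid y z, ¬ p ∣ c := by
    intro p hp hd
    have h1 := Nat.le_of_dvd (by omega) hd
    have h2 := (mem_mid.1 hp).1
    omega
  obtain ⟨b, hb⟩ := inv_ex c P (fun p hp => ⟨(mem_mid.1 (hPm hp)).2.2, hmidc p (hPm hp)⟩)
  -- roughness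
  have hrough := a1 y z hy1 hyz hz2 S' hS'x (by rw [← hm]; exact hmx) P hPm (b * (M * q)) (fun p hp hd' => by
      have hpp := (mem_mid.1 (hPm hp)).2.2
      rcases hpp.dvd_mul.1 hd' with h | h
      · exact (hb p hp).1 h
      rcases hpp.dvd_mul.1 h with h | h
      · rw [hMd, hpp.dvd_primorial_iff] at h
        have := (mem_mid.1 (hPm hp)).1
        omega
      · rw [hP, mem_filter] at hp
        exact hp.2 h) (fun s => s + b * (M * n₁ + d)) (fun s hs t ht p w h1 h2 => by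
      exact dvd_dist' p s t (b * (M * n₁ + d) + w) (by rw [← add_assoc]; exact h1) (by rw [← add_assoc]; exact h2))
      J ((pow_le_pow_right₀ hL1 (by omega)).trans hJL)
  rw [← hm] at hrough
  have hrough' : (((Icc 1 J).filter (fun g => ((S'.filter (fun s => ∀ p ∈ P, ¬ p ∣ c * s + (M * n₁ + d + M * q * g))).card : ℝ) <
      (1 - δ) * (m * VP P))).card : ℝ) ≤ δ * J := by
    refine le_trans (le_of_eq ?_) hrough
    congr 2
    apply filter_congr
    intro g _
    have : S'.filter (fun s => ∀ p ∈ P, ¬ p ∣ c * s + (M * n₁ + d + M * q * g)) =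
        S'.filter (fun s => ∀ p ∈ P, ¬ p ∣ s + b * (M * n₁ + d) + b * (M * q) * g) := by
      apply filter_congr
      intro s _
      refine forall₂_congr fun p hp => ?_
      rw [not_iff_not, ← (hb p hp).2 s (M * n₁ + d + M * q * g)]
      have : s + b * (M * n₁ + d + M * q * g) = s + b * (M * n₁ + d) + b * (M * q) * g := by ring
      rw [this]
    rw [this]
  -- the bilinear sum
  have hr0 : M * n₁ + d ≤ C' * x := by
    have : C' * x = C * x + 4 * x := by rw [hC']; ring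
    omega
  have hu := s2 (M * q) hMqQ hMqS c hc (by omega) (M * n₁ + d) hr0
    (fun n => if n ∈ S' then 1 else 0) (fun n => by
      split_ifs <;> simp)
  rw [← hJ] at hu
  have hbil : ∑ v ∈ range (J + 1), |∑ s ∈ S', (ArithmeticFunction.vonMangoldt (c * s + (M * n₁ + d + M * q * v)) -
      lamz z (c * s + (M * n₁ + d + M * q * v)))| ≤ ((J + 1 : ℕ) : ℝ) * (x / L ^ (A + 3)) := by
    refine le_trans (le_of_eq ?_) hu
    refine sum_congr rfl fun v _ => ?_
    rw [← Real.norm_eq_abs, ← Complex.norm_real]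
    congr 1
    push_cast
    have e1 : ∀ n ∈ Icc 1 x, (if n ∈ S' then (1 : ℂ) else 0) *
        (((ArithmeticFunction.vonMangoldt (c * n + (M * n₁ + d + M * q * v)) : ℝ) : ℂ) -
          ((lamz z (c * n + (M * n₁ + d + M * q * v)) : ℝ) : ℂ)) =
        if n ∈ S' then (((ArithmeticFunction.vonMangoldt (c * n + (M * n₁ + d + M * q * v)) : ℝ) : ℂ) -
          ((lamz z (c * n + (M * n₁ + d + M * q * v)) : ℝ) : ℂ)) else 0 := by
      intro n _
      split_ifs
      · rw [one_mul]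
      · rw [zero_mul]
    rw [sum_congr rfl e1, ← sum_filter]
    apply sum_congr _ (fun _ _ => rfl)
    ext s
    rw [mem_filter]
    exact ⟨fun hs => ⟨hS'x hs, hs⟩, fun hs => hs.2⟩
  obtain ⟨Y, hY⟩ : ∃ Y, Y = C' * x := ⟨_, rfl⟩
  have hYr : (Y : ℝ) = C' * x := by rw [hY]; push_cast; ring
  have hYx : x ≤ Y := by
    rw [hY]
    exact Nat.le_mul_of_pos_left _ (by omega)
  have hFY : ∀ g ∈ Icc 1 J, ∀ s ∈ S', c * s + (M * n₁ + d + M * q * g) ≤ Y := by
    intro g hg s hs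
    have h1 := (mem_Icc.1 (hS'x hs)).2
    have h2 : c * s ≤ C * x := Nat.mul_le_mul hcC h1
    have h3 : M * q * g ≤ M * q * J := Nat.mul_le_mul_left _ (mem_Icc.1 hg).2
    have h4 : Y = C * x + 4 * x := by rw [hY, hC']; ring
    omega
  have hlogY : Real.log (Y : ℝ) ≤ (1 + δ) * L := by
    rw [hYr, Real.log_mul (by linarith) hx0.ne', ← hLd]
    nlinarith
  have hlogY' : 0 < Real.log (Y : ℝ) := by
    apply Real.log_pos
    rw [hYr]
    nlinarith
  have hPP : 2 * √(Y : ℝ) * Real.log (Y : ℝ) ≤ δ * m := by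
    have h1 : √(Y : ℝ) ≤ C' * √(x : ℝ) := by
      rw [hYr, Real.sqrt_mul (by linarith)]
      apply mul_le_mul_of_nonneg_right _ (Real.sqrt_nonneg _)
      rw [Real.sqrt_le_left (by linarith)]
      nlinarith
    have h2 : Real.log (Y : ℝ) ≤ 2 * L := hlogY.trans (by nlinarith)
    have hsx : 0 < √(x : ℝ) := Real.sqrt_pos.2 hx0
    have h3 : 4 * C' * L ^ (A + 2) ≤ δ * √(x : ℝ) := by
      rw [div_mul_eq_mul_div, div_le_iff₀ hδ] at hL4
      have : L ^ (A + 2) ≤ L ^ (B₁ + A + 5) := pow_le_pow_right₀ hL1 (by omega)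
      nlinarith
    have h4 : (√(x : ℝ) * (4 * C' * L)) * L ^ (A + 1) ≤ (δ * m) * L ^ (A + 1) := by
      calc (√(x : ℝ) * (4 * C' * L)) * L ^ (A + 1) = √(x : ℝ) * (4 * C' * L ^ (A + 2)) := by
            rw [show A + 2 = (A + 1) + 1 by ring, pow_succ L (A + 1)]; ring
        _ ≤ √(x : ℝ) * (δ * √(x : ℝ)) := mul_le_mul_of_nonneg_left h3 hsx.le
        _ = δ * (√(x : ℝ) * √(x : ℝ)) := by ring
        _ = δ * x := by rw [Real.mul_self_sqrt hx0.le]
        _ ≤ δ * (m * L ^ (A + 1)) := mul_le_mul_of_nonneg_left hmx hδ.le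
        _ = _ := by ring
    have h5 := le_of_mul_le_mul_right h4 (by positivity)
    calc 2 * √(Y : ℝ) * Real.log (Y : ℝ) ≤ 2 * (C' * √(x : ℝ)) * (2 * L) := by
          apply mul_le_mul (by linarith) h2 hlogY'.le (by positivity)
      _ = √(x : ℝ) * (4 * C' * L) := by ring
      _ ≤ δ * m := h5
  have key := asmF S' P y z J Y (fun g s => c * s + (M * n₁ + d + M * q * g)) δ m (((J + 1 : ℕ) : ℝ) * (x / L ^ (A + 3))) hδ
    hm.symm hm0 hyz hPm (fun g hg s hs => by
      have hsS := hSp s (hS'S hs)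
      have hsz : z < s := by rw [hS', mem_filter] at hs; exact hs.2
      refine lamz_shift y z c s (M * n₁ + d + M * q * g) P hsS hsz hPm (fun p hp hpy hd' => ?_) hmidc (fun p hp hpP => ?_)
      · have e1 : c * s + (M * n₁ + d + M * q * g) = (c * s + d) + M * (n₁ + q * g) := by ring
        rw [e1] at hd'
        have e2 : p ∣ M * (n₁ + q * g) := (hMp p hp hpy).mul_right _
        exact hsmall p s hp hpy hsS (by omega) ((Nat.dvd_add_left e2).1 hd')
      · have hpq : p ∣ q := by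
          by_contra hcon
          exact hpP (by rw [hP, mem_filter]; exact ⟨hp, hcon⟩)
        rw [mem_mid] at hp
        have h1 := hr' p hp.2.2 hp.1 (by
          have : (p : ℝ) ≤ z := by exact_mod_cast hp.2.1
          exact this.trans (hz2.trans (pow_le_pow_right₀ hL1 (by omega)))) hpq
        have h2 : n₁ ≡ r [MOD p] := hmod.of_dvd hpq
        have h3 : M * n₁ + d ≡ M * r + d [MOD p] := (h2.mul_left M).add_right d
        have h4 : p ∣ M * n₁ + d := (h3.dvd_iff (dvd_refl p)).2 h1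
        exact dvd_add h4 ((hpq.mul_left M).mul_right g))
    hFY hrough' hbil (by
      push_cast
      have h1 : (x : ℝ) / L ^ (A + 3) ≤ δ ^ 2 / 2 * m := by
        rw [div_le_iff₀ (by positivity)]
        calc (x : ℝ) ≤ m * L ^ (A + 1) := hmx
          _ = m * L ^ (A + 1) * 1 := (mul_one _).symm
          _ ≤ m * L ^ (A + 1) * (δ ^ 2 / 2 * L ^ 2) := by
              apply mul_le_mul_of_nonneg_left _ (by positivity)
              nlinarith
          _ = _ := by rw [show A + 3 = (A + 1) + 2 by ring, pow_add]; ring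
      calc ((J : ℝ) + 1) * (x / L ^ (A + 3)) ≤ (2 * J) * (δ ^ 2 / 2 * m) := by
            apply mul_le_mul (by linarith) h1 (by positivity) (by positivity)
        _ = _ := by ring) (fun g hg => by
      refine le_trans (pp_lin Y c (M * n₁ + d + M * q * g) hc (by omega) S' (fun s hs => ?_)) hPP
      exact ⟨(mem_Icc.1 (hS'x hs)).1, hFY g hg s hs⟩)
  -- the exceptional members
  have hVy := Vz_pos y
  obtain ⟨Bad, hBad⟩ : ∃ Bad, Bad = (Icc 1 J).filter (fun g => ((S'.filter (fun s => (c * s + (M * n₁ + d + M * q * g)).Prime)).card : ℝ) *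
      Real.log (Y : ℝ) < (1 - 3 * δ) * (m * (Vz y)⁻¹)) := ⟨_, rfl⟩
  rw [← hBad] at key
  have hsub : (Icc 1 x).filter (fun n => M * n ≤ x ∧ n ≡ r [MOD q] ∧
        ((S.filter (fun s => (c * s + (M * n + d)).Prime)).card : ℝ) < (1 - ε) * (S.card / (Vz y * L))) ⊆
      (insert 0 Bad).image (fun g => n₁ + q * g) := by
    intro n hn
    rw [mem_filter] at hn
    obtain ⟨-, h2, h3, h4⟩ := hn
    have h5 : n₁ ≡ n [MOD q] := hmod.trans h3.symm
    have h6 : n₁ ≤ n := by
      by_contra hcon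
      rw [not_le] at hcon
      have h7 : q ∣ n₁ - n := (Nat.modEq_iff_dvd' hcon.le).1 h5.symm
      have h8 := Nat.le_of_dvd (by omega) h7
      omega
    have h7 : q ∣ n - n₁ := (Nat.modEq_iff_dvd' h6).1 h5
    obtain ⟨g, hg⟩ := h7
    have hng : n = n₁ + q * g := by omega
    rw [mem_image]
    refine ⟨g, ?_, hng.symm⟩
    rw [mem_insert]
    by_cases hg0 : g = 0
    · exact Or.inl hg0
    right
    have hNn : M * n₁ + d + M * q * g = M * n + d := by rw [hng]; ring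
    have hgJ : g ≤ J := by
      rw [hJ, Nat.le_div_iff_mul_le hMq1]
      have : g * (M * q) = M * q * g := by ring
      rw [this]
      omega
    rw [hBad, mem_filter, mem_Icc, hNn]
    refine ⟨⟨by omega, hgJ⟩, ?_⟩
    by_contra hcon
    rw [not_lt] at hcon
    apply absurd h4
    rw [not_lt]
    have e1 : ((S'.filter (fun s => (c * s + (M * n + d)).Prime)).card : ℝ) ≤ ((S.filter (fun s => (c * s + (M * n + d)).Prime)).card : ℝ) := by
      exact_mod_cast card_le_card (filter_subset_filter _ hS'S)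
    refine le_trans ?_ e1
    have e2 : (1 - ε) * (S.card / (Vz y * L)) * Real.log (Y : ℝ) ≤
        ((S'.filter (fun s => (c * s + (M * n + d)).Prime)).card : ℝ) * Real.log (Y : ℝ) := by
      refine le_trans ?_ hcon
      calc (1 - ε) * (S.card / (Vz y * L)) * Real.log (Y : ℝ) ≤ (1 - ε) * (S.card / (Vz y * L)) * ((1 + δ) * L) := by
            apply mul_le_mul_of_nonneg_left hlogY
            apply mul_nonneg (by linarith)
            positivity
        _ = ((1 - ε) * (1 + δ)) * (S.card * (Vz y)⁻¹) := by field_simp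
        _ ≤ ((1 - 3 * δ) * (1 - δ)) * (S.card * (Vz y)⁻¹) := by
            apply mul_le_mul_of_nonneg_right _ (by positivity)
            have : ε = 16 * δ := by rw [hδd]; ring
            rw [this]
            nlinarith
        _ = (1 - 3 * δ) * (((1 - δ) * S.card) * (Vz y)⁻¹) := by ring
        _ ≤ (1 - 3 * δ) * (m * (Vz y)⁻¹) := by
            apply mul_le_mul_of_nonneg_left _ (by linarith)
            exact mul_le_mul_of_nonneg_right hmS (inv_pos.2 hVy).le
    exact le_of_mul_le_mul_right e2 hlogY'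
  have h1 := card_le_card hsub
  have h2 : ((insert 0 Bad).image (fun g => n₁ + q * g)).card ≤ Bad.card + 1 := card_image_le.trans (card_insert_le _ _)
  have h3 : (((Icc 1 x).filter (fun n => M * n ≤ x ∧ n ≡ r [MOD q] ∧
        ((S.filter (fun s => (c * s + (M * n + d)).Prime)).card : ℝ) < (1 - ε) * (S.card / (Vz y * L)))).card : ℝ) ≤ Bad.card + 1 := by
    exact_mod_cast h1.trans h2
  refine h3.trans ?_
  have h4 : (Bad.card : ℝ) + 1 ≤ 3 * δ * J := by linarith
  refine h4.trans ?_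
  have h5 : 0 ≤ (x : ℝ) / (M * q) := by positivity
  calc 3 * δ * J ≤ ε * J := by
        apply mul_le_mul_of_nonneg_right _ (by linarith)
        rw [hδd]
        linarith
    _ ≤ ε * (x / (M * q)) := mul_le_mul_of_nonneg_left hJx hε.le

end Pool.Agent.T2h83.US
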