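import Pool.Agent.T2h83.US.Asm
import Pool.Agent.T2h83.UP.Diff
import Pool.Agent.T2h83.UP.Fin

/-!
Project US (helper83): for almost all shifts only a small part of a set is mapped to primes by a linear form.
-/

set_option autoImplicit false

namespace Pool.Agent.T2h83.US

open Finset
open Pool.Agent.T2h83.UP (univ)
open Pool.Agent.H373R2.T7 (Vz pz mem_pz Vz_pos Vz_le_one lamz ev_L' ev_log' Vz_inv_le lamz_nonneg)
open Pool.Agent.Y877.SX (mid mem_mid primorial_le_log)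

theorem Vz_inv_eps (E : ℕ) (η : ℝ) (hη : 0 < η) : ∃ N0 : ℕ, ∀ N : ℕ, N0 ≤ N → ∀ z : ℕ, 1 ≤ z → (z : ℝ) ≤ Real.log N ^ E →
    (Vz z)⁻¹ ≤ η * Real.log N := by
  obtain ⟨C, hC⟩ := Pool.Agent.Helper256.KM.mertens_inv
  have hlim : Filter.Tendsto (fun N : ℕ => Real.log (N : ℝ)) Filter.atTop Filter.atTop :=
    Real.tendsto_log_atTop.comp (tendsto_natCast_atTop_atTop (R := ℝ))
  have h2 : ∀ᶠ N : ℕ in Filter.atTop, (Real.exp (2 * C) * (E : ℝ) ^ 2) * Real.log (Real.log N) ^ 2 ≤ η * Real.log N := by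
    have h3 := (Real.isLittleO_pow_log_id_atTop (n := 2)).bound
      (show (0 : ℝ) < η / (Real.exp (2 * C) * (E : ℝ) ^ 2 + 1) by positivity)
    have h4 := hlim.eventually h3
    filter_upwards [h4, hlim.eventually_ge_atTop 1] with N h5 h6
    simp only [id] at h5
    rw [Real.norm_of_nonneg (by positivity), Real.norm_of_nonneg (by linarith), div_mul_eq_mul_div,
      le_div_iff₀ (by positivity)] at h5
    have h7 : 0 ≤ Real.log (Real.log N) ^ 2 := by positivity
    nlinarith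
  obtain ⟨N0, h0⟩ := Filter.eventually_atTop.1 (h2.and (hlim.eventually_ge_atTop (3 / η)))
  refine ⟨N0, fun N hN z hz hzE => ?_⟩
  obtain ⟨hb, hL⟩ := h0 N hN
  rcases lt_or_ge z 3 with h3 | h3
  · refine (Vz_inv_le z hz).trans ?_
    have : (z : ℝ) ≤ 3 := by exact_mod_cast h3.le
    rw [div_le_iff₀ hη] at hL
    linarith
  have h4 := hC z h3
  have h5 : (Vz z)⁻¹ ≤ Real.exp (2 * ∑ p ∈ pz z, 1 / (p : ℝ)) := by
    unfold Vz
    rw [← prod_inv_distrib, mul_sum, Real.exp_sum]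
    apply prod_le_prod
    · intro p hp
      have hp2 : (2 : ℝ) ≤ p := by exact_mod_cast (mem_pz.1 hp).2.two_le
      apply inv_nonneg.2
      rw [sub_nonneg, div_le_one (by linarith)]; linarith
    · intro p hp
      have hp2 : (2 : ℝ) ≤ p := by exact_mod_cast (mem_pz.1 hp).2.two_le
      have h6 : (1 - 1 / (p : ℝ))⁻¹ ≤ 2 * (1 / p) + 1 := by
        rw [inv_le_iff_one_le_mul₀ (by rw [sub_pos, div_lt_one (by linarith)]; linarith)]
        have h7 : 0 < 1 / (p : ℝ) := by positivity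
        have h8 : 1 / (p : ℝ) ≤ 1 / 2 := one_div_le_one_div_of_le (by norm_num) hp2
        nlinarith
      exact h6.trans (Real.add_one_le_exp _)
  have hz3 : (3 : ℝ) ≤ z := by exact_mod_cast h3
  have hlz : 1 ≤ Real.log z := by
    rw [← Real.log_exp 1]
    apply Real.log_le_log (Real.exp_pos _)
    have := Real.exp_one_lt_d9
    linarith
  have h6 : ∑ p ∈ pz z, 1 / (p : ℝ) ≤ Real.log (Real.log z) + C := by
    have := (abs_le.1 h4).2
    unfold pz
    linarith
  have h7 : Real.log z ≤ E * Real.log (Real.log N) := by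
    have h8 := Real.log_le_log (by linarith) hzE
    rw [Real.log_pow] at h8
    exact h8
  calc (Vz z)⁻¹ ≤ Real.exp (2 * ∑ p ∈ pz z, 1 / (p : ℝ)) := h5
    _ ≤ Real.exp (2 * (Real.log (Real.log z) + C)) := Real.exp_le_exp.2 (by linarith)
    _ = Real.exp (2 * C) * Real.log z ^ 2 := by
        rw [mul_add, Real.exp_add, mul_comm 2 (Real.log (Real.log z)), Real.exp_mul, Real.exp_log (by linarith)]
        norm_num
        ring
    _ ≤ Real.exp (2 * C) * (E * Real.log (Real.log N)) ^ 2 := by gcongr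
    _ = (Real.exp (2 * C) * (E : ℝ) ^ 2) * Real.log (Real.log N) ^ 2 := by ring
    _ ≤ _ := hb

open Classical in
/-- **few primes**: shifts in the residue classes of almost all moduli -/
theorem ups (C A W : ℕ) (ε : ℝ) (hε : 0 < ε) (hε1 : ε ≤ 1) : ∀ K₁ : ℕ, ∃ B x₀ : ℕ, ∀ x : ℕ, x₀ ≤ x →
    ∀ y : ℕ, (y : ℝ) ≤ K₁ * Real.log (Real.log x) →
    ∀ Q : ℕ, (Q : ℝ) * Real.log x ^ B ≤ x →
    ∃ X : Finset ℕ, (X.card : ℝ) ≤ Q / Real.log x ^ W ∧ ∀ q ∈ Ioc Q (2 * Q), q ∉ X →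
      ∀ c : ℕ, 1 ≤ c → c ≤ C → ∀ d : ℕ, d ≤ x → ∀ r : ℕ,
      ∀ S : Finset ℕ, S ⊆ Icc 1 x → (x : ℝ) ≤ S.card * Real.log x ^ A →
      (((Icc 1 x).filter (fun n => primorial y * n ≤ x ∧ n ≡ r [MOD q] ∧
        ε * S.card < ((S.filter (fun s => (c * s + (primorial y * n + d)).Prime)).card : ℝ))).card : ℝ) ≤
          ε * (x / (primorial y * q)) := by
  intro K1
  obtain ⟨C', hC'⟩ : ∃ C', C' = C + 4 := ⟨_, rfl⟩
  obtain ⟨B₁, hB₁⟩ := univ C' (W + 2 * K1) (A + 3)
  obtain ⟨x2, hx2⟩ := hB₁ (B₁ + 3)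
  obtain ⟨B, hB⟩ : ∃ B, B = B₁ + 2 * K1 + 6 := ⟨_, rfl⟩
  obtain ⟨x3, hx3⟩ := ev_L' (Real.exp 1 + K1 + 100 + 64 / ε ^ 2)
  obtain ⟨x4, hx4⟩ := ev_log' (A + 1) (4 / ε)
  obtain ⟨x5, hx5⟩ := Vz_inv_eps (B₁ + 3) (ε / 16) (by positivity)
  refine ⟨B, x2 + x3 + x4 + x5 + 3, fun x hx y hy2 Q hQ => ?_⟩
  have hL := hx3 x (by omega)
  have hL4 := hx4 x (by omega)
  have a2 := hx2 x (by omega)
  have a5 := hx5 x (by omega)
  have hx1' : 1 ≤ x := by omega
  have hxr : (1 : ℝ) ≤ x := by exact_mod_cast hx1'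
  have hx0 : (0 : ℝ) < x := by linarith
  obtain ⟨L, hLd⟩ : ∃ L, L = Real.log (x : ℝ) := ⟨_, rfl⟩
  rw [← hLd] at hL hL4 a2 a5 hy2 hQ ⊢
  have hd2 : 0 < 64 / ε ^ 2 := by positivity
  have he : 0 < Real.exp 1 := Real.exp_pos 1
  have hK1r : (0 : ℝ) ≤ K1 := Nat.cast_nonneg _
  have hLe : Real.exp 1 ≤ L := by linarith
  have hLK : (K1 : ℝ) ≤ L := by linarith
  have hL100 : 100 ≤ L := by linarith
  have hL0 : 0 < L := by linarith
  have hL1 : 1 ≤ L := by linarith
  have hLε : 64 ≤ L * ε ^ 2 := by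
    have : 64 / ε ^ 2 ≤ L := by linarith
    rwa [div_le_iff₀ (by positivity)] at this
  -- the primorial
  obtain ⟨M, hMd⟩ : ∃ M, M = primorial y := ⟨_, rfl⟩
  have hML : (M : ℝ) ≤ L ^ (2 * K1) := by rw [hMd]; exact primorial_le_log K1 y L hLe hy2
  have hM1 : 1 ≤ M := by rw [hMd]; exact primorial_pos y
  have hM0 : (0 : ℝ) < M := by exact_mod_cast hM1
  rw [← hMd]
  -- z
  obtain ⟨z, hzd⟩ : ∃ z, z = ⌈L ^ (B₁ + 2)⌉₊ := ⟨_, rfl⟩
  have hz1 : L ^ (B₁ + 2) ≤ z := by rw [hzd]; exact Nat.le_ceil _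
  have hz2 : (z : ℝ) ≤ L ^ (B₁ + 3) := by
    have h1 : (z : ℝ) < L ^ (B₁ + 2) + 1 := by rw [hzd]; exact Nat.ceil_lt_add_one (by positivity)
    have h2 : L ^ (B₁ + 3) = L ^ (B₁ + 2) * L := pow_succ _ _
    have h3 : 1 ≤ L ^ (B₁ + 2) := one_le_pow₀ hL1
    rw [h2]
    nlinarith
  have hz1' : 1 ≤ z := by
    have : (1 : ℝ) ≤ z := (one_le_pow₀ hL1).trans hz1
    exact_mod_cast this
  have hVz5 := a5 z hz1' hz2
  -- the bad moduli
  obtain ⟨S'', s1, s2⟩ := a2 z ((pow_le_pow_right₀ hL1 (by omega)).trans hz1) hz2 (M * Q) (by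
    push_cast
    calc (M : ℝ) * Q * L ^ B₁ ≤ L ^ (2 * K1) * Q * L ^ B₁ := by gcongr
      _ = Q * L ^ (2 * K1 + B₁) := by rw [pow_add]; ring
      _ ≤ Q * L ^ B := by
          gcongr
          omega
      _ ≤ x := hQ)
  refine ⟨(Ioc Q (2 * Q)).filter (fun q => M * q ∈ S''), ?_, fun q hqQ hqX c hc hcC d hd r S hS hSc => ?_⟩
  · have e1 : (((Ioc Q (2 * Q)).filter (fun q => M * q ∈ S'')).card : ℝ) ≤ S''.card := by
      have : ((Ioc Q (2 * Q)).filter (fun q => M * q ∈ S'')).card ≤ S''.card := by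
        apply card_le_card_of_injOn (fun q => M * q)
        · intro q hq
          exact (mem_filter.1 (mem_coe.1 hq)).2
        · intro a _ b _ hab
          exact Nat.eq_of_mul_eq_mul_left hM1 hab
      exact_mod_cast this
    refine e1.trans (s1.trans ?_)
    push_cast
    rw [div_le_div_iff₀ (by positivity) (by positivity)]
    calc (M : ℝ) * Q * L ^ W ≤ L ^ (2 * K1) * Q * L ^ W := by gcongr
      _ = Q * L ^ (W + 2 * K1) := by rw [pow_add]; ring
  have hq1 : 1 ≤ q := by rw [mem_Ioc] at hqQ; omega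
  have hq0 : (0 : ℝ) < q := by exact_mod_cast hq1
  have hMq1 : 1 ≤ M * q := Nat.mul_pos hM1 hq1
  have hMqQ : M * q ∈ Ioc (M * Q) (2 * (M * Q)) := by
    rw [mem_Ioc] at hqQ ⊢
    constructor
    · exact Nat.mul_lt_mul_of_pos_left hqQ.1 hM1
    · calc M * q ≤ M * (2 * Q) := Nat.mul_le_mul_left _ hqQ.2
        _ = _ := by ring
  have hMqS : M * q ∉ S'' := fun h => hqX (mem_filter.2 ⟨hqQ, h⟩)
  -- sizes
  have hMqx : (M : ℝ) * q * L ^ 5 ≤ x := by
    have h1 : (q : ℝ) ≤ 2 * Q := by exact_mod_cast (mem_Ioc.1 hqQ).2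
    calc (M : ℝ) * q * L ^ 5 ≤ L ^ (2 * K1) * (2 * Q) * L ^ 5 := by gcongr
      _ ≤ L ^ (2 * K1) * (L * Q) * L ^ 5 := by gcongr; linarith
      _ = Q * L ^ (2 * K1 + 6) := by rw [show 2 * K1 + 6 = 2 * K1 + 1 + 5 by ring, pow_add, pow_add]; ring
      _ ≤ Q * L ^ B := by
          gcongr
          omega
      _ ≤ x := hQ
  obtain ⟨J, hJ⟩ : ∃ J, J = x / (M * q) := ⟨_, rfl⟩
  have hJx : (J : ℝ) ≤ x / (M * q) := by
    rw [hJ]
    refine Nat.cast_div_le.trans (le_of_eq ?_)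
    push_cast
    rfl
  have hJL : L ^ 4 ≤ J := by
    have h1 : (x : ℝ) < (M * q : ℕ) * ((J + 1 : ℕ) : ℝ) := by
      rw [hJ]
      exact_mod_cast Nat.lt_mul_div_succ x hMq1
    push_cast at h1
    have h2 : L ^ 5 < (J : ℝ) + 1 := by
      by_contra hcon
      rw [not_lt] at hcon
      have : (M : ℝ) * q * (J + 1) ≤ M * q * L ^ 5 := mul_le_mul_of_nonneg_left hcon (by positivity)
      linarith
    have h3 : L ^ 5 = L ^ 4 * L := pow_succ _ _
    have h4 : 1 ≤ L ^ 4 := one_le_pow₀ hL1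
    nlinarith
  have hJ1 : (1 : ℝ) ≤ J := (one_le_pow₀ hL1).trans hJL
  have hLJ : L ≤ J := by
    calc L = L ^ 1 := (pow_one _).symm
      _ ≤ L ^ 4 := pow_le_pow_right₀ hL1 (by omega)
      _ ≤ J := hJL
  have hJε : 2 ≤ ε * J := by
    have : ε ^ 2 ≤ ε := by nlinarith
    nlinarith
  -- the first member
  obtain ⟨n₁, hn₁⟩ : ∃ n₁, n₁ = r % q := ⟨_, rfl⟩
  have hmod : n₁ ≡ r [MOD q] := by
    rw [hn₁]
    exact Nat.mod_modEq _ _
  have hn₁lt : n₁ < q := by
    rw [hn₁]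
    exact Nat.mod_lt _ hq1
  have hMqJ : M * q * J ≤ x := by rw [hJ]; exact Nat.mul_div_le x (M * q)
  have hMqxN : M * q ≤ x := by
    have hJ1' : 1 ≤ J := by exact_mod_cast hJ1
    calc M * q = M * q * 1 := (mul_one _).symm
      _ ≤ M * q * J := Nat.mul_le_mul_left _ hJ1'
      _ ≤ x := hMqJ
  have hMn1 : M * n₁ ≤ x := (Nat.mul_le_mul_left M hn₁lt.le).trans hMqxN
  have hS0 : (0 : ℝ) < S.card := by
    by_contra h
    push Not at h
    have : (S.card : ℝ) * L ^ A ≤ 0 := mul_nonpos_of_nonpos_of_nonneg h (by positivity)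
    linarith
  -- the bilinear sum
  have hr0 : M * n₁ + d ≤ C' * x := by
    have : C' * x = C * x + 4 * x := by rw [hC']; ring
    omega
  have hu := s2 (M * q) hMqQ hMqS c hc (by omega) (M * n₁ + d) hr0
    (fun n => if n ∈ S then 1 else 0) (fun n => by
      split_ifs <;> simp)
  rw [← hJ] at hu
  have hbil : ∑ v ∈ range (J + 1), |∑ s ∈ S, (ArithmeticFunction.vonMangoldt (c * s + (M * n₁ + d + M * q * v)) -
      lamz z (c * s + (M * n₁ + d + M * q * v)))| ≤ ((J + 1 : ℕ) : ℝ) * (x / L ^ (A + 3)) := by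
    refine le_trans (le_of_eq ?_) hu
    refine sum_congr rfl fun v _ => ?_
    rw [← Real.norm_eq_abs, ← Complex.norm_real]
    congr 1
    push_cast
    have e1 : ∀ n ∈ Icc 1 x, (if n ∈ S then (1 : ℂ) else 0) *
        (((ArithmeticFunction.vonMangoldt (c * n + (M * n₁ + d + M * q * v)) : ℝ) : ℂ) -
          ((lamz z (c * n + (M * n₁ + d + M * q * v)) : ℝ) : ℂ)) =
        if n ∈ S then (((ArithmeticFunction.vonMangoldt (c * n + (M * n₁ + d + M * q * v)) : ℝ) : ℂ) -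
          ((lamz z (c * n + (M * n₁ + d + M * q * v)) : ℝ) : ℂ)) else 0 := by
      intro n _
      split_ifs
      · rw [one_mul]
      · rw [zero_mul]
    rw [sum_congr rfl e1, ← sum_filter]
    apply sum_congr _ (fun _ _ => rfl)
    ext s
    rw [mem_filter]
    exact ⟨fun hs => ⟨hS hs, hs⟩, fun hs => hs.2⟩
  -- the exceptional members
  obtain ⟨Bad, hBad⟩ : ∃ Bad, Bad = (Icc 1 J).filter (fun g => ε * S.card <
      ((S.filter (fun s => (c * s + (M * n₁ + d + M * q * g)).Prime)).card : ℝ)) := ⟨_, rfl⟩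
  have hsx : √(x : ℝ) ≤ ε / 4 * S.card := by
    have h1 : 4 / ε * L ^ (A + 1) ≤ √(x : ℝ) := hL4
    have hs0 : 0 < √(x : ℝ) := Real.sqrt_pos.2 hx0
    have h2 : √(x : ℝ) * L ^ A ≤ (ε / 4 * S.card) * L ^ A := by
      rw [div_mul_eq_mul_div, div_le_iff₀ hε] at h1
      have h3 : L ^ A ≤ L ^ (A + 1) := pow_le_pow_right₀ hL1 (by omega)
      calc √(x : ℝ) * L ^ A ≤ √(x : ℝ) * (√(x : ℝ) * ε / 4) := by
            apply mul_le_mul_of_nonneg_left _ hs0.le
            linarith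
        _ = ε / 4 * (√(x : ℝ) * √(x : ℝ)) := by ring
        _ = ε / 4 * x := by rw [Real.mul_self_sqrt hx0.le]
        _ ≤ ε / 4 * (S.card * L ^ A) := by gcongr
        _ = _ := by ring
    exact le_of_mul_le_mul_right h2 (by positivity)
  have hlow : ∀ g ∈ Bad, ε / 8 * (S.card * L) ≤ |∑ s ∈ S, (ArithmeticFunction.vonMangoldt (c * s + (M * n₁ + d + M * q * g)) -
      lamz z (c * s + (M * n₁ + d + M * q * g)))| := by
    intro g hg
    rw [hBad, mem_filter] at hg
    obtain ⟨-, hg⟩ := hg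
    rw [sum_sub_distrib]
    refine le_trans ?_ (le_abs_self _)
    have h1 : ∑ s ∈ S, lamz z (c * s + (M * n₁ + d + M * q * g)) ≤ (ε / 16 * L) * S.card := by
      calc ∑ s ∈ S, lamz z (c * s + (M * n₁ + d + M * q * g)) ≤ ∑ _s ∈ S, (ε / 16 * L) := by
            refine sum_le_sum fun s _ => ?_
            unfold lamz
            split_ifs
            · exact hVz5
            · positivity
        _ = _ := by rw [sum_const, nsmul_eq_mul]; ring
    have h2 : ((S.filter (fun s => (c * s + (M * n₁ + d + M * q * g)).Prime)).card : ℝ) ≤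
        ((S.filter (fun s => (c * s + (M * n₁ + d + M * q * g)).Prime ∧ √(x : ℝ) ≤ s)).card : ℝ) + √(x : ℝ) := by
      have h3 : S.filter (fun s => (c * s + (M * n₁ + d + M * q * g)).Prime) ⊆
          S.filter (fun s => (c * s + (M * n₁ + d + M * q * g)).Prime ∧ √(x : ℝ) ≤ s) ∪ Icc 1 ⌊√(x : ℝ)⌋₊ := by
        intro s hs
        rw [mem_filter] at hs
        rw [mem_union, mem_filter, mem_Icc]
        by_cases h : √(x : ℝ) ≤ s
        · exact Or.inl ⟨hs.1, hs.2, h⟩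
        · right
          push Not at h
          exact ⟨(mem_Icc.1 (hS hs.1)).1, Nat.le_floor h.le⟩
      have h4 := (card_le_card h3).trans (card_union_le _ _)
      rw [Nat.card_Icc, Nat.add_sub_cancel] at h4
      have h5 : (⌊√(x : ℝ)⌋₊ : ℝ) ≤ √(x : ℝ) := Nat.floor_le (Real.sqrt_nonneg _)
      have h6 : ((S.filter (fun s => (c * s + (M * n₁ + d + M * q * g)).Prime)).card : ℝ) ≤
        ((S.filter (fun s => (c * s + (M * n₁ + d + M * q * g)).Prime ∧ √(x : ℝ) ≤ s)).card : ℝ) + (⌊√(x : ℝ)⌋₊ : ℝ) := by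
        exact_mod_cast h4
      linarith
    have h3 : ((S.filter (fun s => (c * s + (M * n₁ + d + M * q * g)).Prime ∧ √(x : ℝ) ≤ s)).card : ℝ) * (L / 2) ≤
        ∑ s ∈ S, ArithmeticFunction.vonMangoldt (c * s + (M * n₁ + d + M * q * g)) := by
      rw [card_eq_sum_ones, Nat.cast_sum, sum_mul, sum_filter]
      apply sum_le_sum
      intro s hs
      split_ifs with h
      · rw [ArithmeticFunction.vonMangoldt_apply_prime h.1, Nat.cast_one, one_mul]
        have h5 : L / 2 = Real.log √(x : ℝ) := by rw [Real.log_sqrt hx0.le, hLd]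
        rw [h5]
        apply Real.log_le_log (Real.sqrt_pos.2 hx0)
        refine h.2.trans ?_
        have h6 : s ≤ c * s := Nat.le_mul_of_pos_left _ (by omega)
        exact_mod_cast (by omega : s ≤ c * s + (M * n₁ + d + M * q * g))
      · exact ArithmeticFunction.vonMangoldt_nonneg
    have h4 : ε / 4 * S.card * L ≤ ∑ s ∈ S, ArithmeticFunction.vonMangoldt (c * s + (M * n₁ + d + M * q * g)) := by
      refine le_trans ?_ h3
      have h5 : ε / 2 * S.card ≤ ((S.filter (fun s => (c * s + (M * n₁ + d + M * q * g)).Prime ∧ √(x : ℝ) ≤ s)).card : ℝ) := by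
        have : 0 ≤ ε / 4 * S.card := by positivity
        linarith
      calc ε / 4 * S.card * L = (ε / 2 * S.card) * (L / 2) := by ring
        _ ≤ _ := mul_le_mul_of_nonneg_right h5 (by positivity)
    nlinarith
  have hBc : (Bad.card : ℝ) ≤ ε / 2 * J := by
    have h1 : (Bad.card : ℝ) * (ε / 8 * (S.card * L)) ≤ ((J + 1 : ℕ) : ℝ) * (x / L ^ (A + 3)) := by
      refine le_trans ?_ hbil
      calc (Bad.card : ℝ) * (ε / 8 * (S.card * L)) = ∑ _g ∈ Bad, ε / 8 * (S.card * L) := by rw [sum_const, nsmul_eq_mul]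
        _ ≤ ∑ g ∈ Bad, |∑ s ∈ S, (ArithmeticFunction.vonMangoldt (c * s + (M * n₁ + d + M * q * g)) -
            lamz z (c * s + (M * n₁ + d + M * q * g)))| := sum_le_sum hlow
        _ ≤ _ := by
            apply sum_le_sum_of_subset_of_nonneg _ (fun _ _ _ => abs_nonneg _)
            intro g hg
            rw [hBad, mem_filter, mem_Icc] at hg
            rw [mem_range]
            omega
    have h2 : ((J + 1 : ℕ) : ℝ) * (x / L ^ (A + 3)) ≤ (ε / 2 * J) * (ε / 8 * (S.card * L)) := by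
      push_cast
      have h3 : (x : ℝ) / L ^ (A + 3) ≤ S.card / L ^ 3 := by
        rw [div_le_div_iff₀ (by positivity) (by positivity)]
        calc (x : ℝ) * L ^ 3 ≤ (S.card * L ^ A) * L ^ 3 := by gcongr
          _ = _ := by rw [pow_add]; ring
      have h4 : (S.card : ℝ) / L ^ 3 ≤ ε ^ 2 / 32 * (S.card * L) := by
        rw [div_le_iff₀ (by positivity)]
        have h5 : 1 ≤ L ^ 3 := one_le_pow₀ hL1
        calc (S.card : ℝ) = S.card * 1 * 1 := by ring
          _ ≤ S.card * (L * ε ^ 2 / 32) * L ^ 3 := by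
              apply mul_le_mul _ h5 (by norm_num) (by positivity)
              apply mul_le_mul_of_nonneg_left _ hS0.le
              linarith
          _ = _ := by ring
      calc ((J : ℝ) + 1) * (x / L ^ (A + 3)) ≤ (2 * J) * (ε ^ 2 / 32 * (S.card * L)) := by
            apply mul_le_mul (by linarith) (h3.trans h4) (by positivity) (by positivity)
        _ = _ := by ring
    exact le_of_mul_le_mul_right (h1.trans h2) (by positivity)
  have hsub : (Icc 1 x).filter (fun n => M * n ≤ x ∧ n ≡ r [MOD q] ∧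
        ε * S.card < ((S.filter (fun s => (c * s + (M * n + d)).Prime)).card : ℝ)) ⊆
      (insert 0 Bad).image (fun g => n₁ + q * g) := by
    intro n hn
    rw [mem_filter] at hn
    obtain ⟨-, h2, h3, h4⟩ := hn
    have h5 : n₁ ≡ n [MOD q] := hmod.trans h3.symm
    have h6 : n₁ ≤ n := by
      by_contra hcon
      rw [not_le] at hcon
      have h7 : q ∣ n₁ - n := (Nat.modEq_iff_dvd' hcon.le).1 h5.symm
      have h8 := Nat.le_of_dvd (by omega) h7
      omega
    have h7 : q ∣ n - n₁ := (Nat.modEq_iff_dvd' h6).1 h5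
    obtain ⟨g, hg⟩ := h7
    have hng : n = n₁ + q * g := by omega
    rw [mem_image]
    refine ⟨g, ?_, hng.symm⟩
    rw [mem_insert]
    by_cases hg0 : g = 0
    · exact Or.inl hg0
    right
    have hNn : M * n₁ + d + M * q * g = M * n + d := by rw [hng]; ring
    have hgJ : g ≤ J := by
      rw [hJ, Nat.le_div_iff_mul_le hMq1]
      have : g * (M * q) = M * q * g := by ring
      rw [this]
      omega
    rw [hBad, mem_filter, mem_Icc, hNn]
    exact ⟨⟨by omega, hgJ⟩, h4⟩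
  have h1 := card_le_card hsub
  have h2 : ((insert 0 Bad).image (fun g => n₁ + q * g)).card ≤ Bad.card + 1 := card_image_le.trans (card_insert_le _ _)
  have h3 : (((Icc 1 x).filter (fun n => M * n ≤ x ∧ n ≡ r [MOD q] ∧
        ε * S.card < ((S.filter (fun s => (c * s + (M * n + d)).Prime)).card : ℝ))).card : ℝ) ≤ Bad.card + 1 := by
    exact_mod_cast h1.trans h2
  refine h3.trans ?_
  have h4 : (Bad.card : ℝ) + 1 ≤ ε * J := by linarith
  exact h4.trans (mul_le_mul_of_nonneg_left hJx hε.le)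

end Pool.Agent.T2h83.US
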