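import Pool.Agent.T2h83.US.Shift
import Pool.Agent.T2h83.US.Up
import Pool.Agent.T2h83.US.Ind

/-!
Project US (helper83): vectors of shifts.
-/

set_option autoImplicit false

namespace Pool.Agent.T2h83.US

open Finset
open Pool.Agent.H373R2.T7 (Vz pz mem_pz Vz_pos Vz_le_one lamz ev_L' ev_log' Vz_inv_small)
open Pool.Agent.Y877.SX (mid mem_mid primorial_le_log)

/-- the shifts: the multiples `≤ x` of the product of the primes up to `y` whose quotient is in a residue class -/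
def cls (x y q r : ℕ) : Finset ℕ := (Icc 1 x).filter (fun n => primorial y * n ≤ x ∧ n ≡ r [MOD q])

lemma cls_card (x y q r : ℕ) (hq : 1 ≤ q) (h : primorial y * q ≤ x) :
    ((cls x y q r).card : ℝ) ≤ 2 * (x / (primorial y * q)) := by
  obtain ⟨M, hM⟩ : ∃ M, M = primorial y := ⟨_, rfl⟩
  have hM1 : 1 ≤ M := by rw [hM]; exact primorial_pos y
  have hMq : 1 ≤ M * q := Nat.mul_pos hM1 hq
  rw [← hM] at h ⊢
  obtain ⟨J, hJ⟩ : ∃ J, J = x / (M * q) := ⟨_, rfl⟩
  have h1 : cls x y q r ⊆ (range (J + 1)).image (fun g => r % q + q * g) := by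
    intro n hn
    unfold cls at hn
    rw [mem_filter, mem_Icc, ← hM] at hn
    obtain ⟨-, h2, h3⟩ := hn
    rw [mem_image]
    refine ⟨n / q, ?_, ?_⟩
    · rw [mem_range, Nat.lt_succ_iff, hJ, Nat.le_div_iff_mul_le hMq]
      calc n / q * (M * q) = M * (n / q * q) := by ring
        _ ≤ M * n := Nat.mul_le_mul_left _ (Nat.div_mul_le_self n q)
        _ ≤ x := h2
    · have h4 : n % q = r % q := h3
      have h5 := Nat.mod_add_div n q
      omega
  have h2 : (cls x y q r).card ≤ J + 1 := by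
    have := (card_le_card h1).trans card_image_le
    rwa [card_range] at this
  have h3 : 1 ≤ J := by rw [hJ]; exact (Nat.one_le_div_iff hMq).2 h
  have h4 : (J : ℝ) ≤ x / (M * q) := by
    rw [hJ]
    refine Nat.cast_div_le.trans (le_of_eq ?_)
    push_cast
    rfl
  have h5 : ((cls x y q r).card : ℝ) ≤ 2 * J := by exact_mod_cast (by omega : (cls x y q r).card ≤ 2 * J)
  linarith

open Classical in
/-- **vectors of shifts**, arbitrary sets of primes, the residue classes of almost all moduli; the last value not prime -/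
theorem us_exact (k C A W : ℕ) (ε : ℝ) (hε : 0 < ε) (hε1 : ε ≤ 1) : ∃ K₀ : ℕ, ∀ K₁ : ℕ, ∃ B x₀ : ℕ, ∀ x : ℕ, x₀ ≤ x →
    ∀ y : ℕ, K₀ * Real.log (Real.log x) ≤ y → (y : ℝ) ≤ K₁ * Real.log (Real.log x) →
    ∀ Q : ℕ, (Q : ℝ) * Real.log x ^ B ≤ x →
    ∃ X : Finset ℕ, (X.card : ℝ) ≤ Q / Real.log x ^ W ∧ ∀ c d r q : Fin (k + 1) → ℕ,
      (∀ i, q i ∈ Ioc Q (2 * Q) ∧ q i ∉ X) → (∀ i, 1 ≤ c i ∧ c i ≤ C ∧ d i ≤ x) →
      (∀ i, ∀ l s : ℕ, l.Prime → l ≤ y → s.Prime → y < s → ¬ l ∣ c i * s + d i) →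
      (∀ i, ∀ p : ℕ, p.Prime → y < p → (p : ℝ) ≤ Real.log x ^ B → p ∣ q i → p ∣ primorial y * r i + d i) →
      ∀ S : Finset ℕ, S ⊆ Icc 1 x → (∀ s ∈ S, s.Prime) → (x : ℝ) ≤ S.card * Real.log x ^ A →
      (((Fintype.piFinset (fun i => cls x y (q i) (r i))).filter (fun n =>
        ((S.filter (fun s => (∀ i : Fin k, (c i.castSucc * s + (primorial y * n i.castSucc + d i.castSucc)).Prime) ∧
          ¬ (c (Fin.last k) * s + (primorial y * n (Fin.last k) + d (Fin.last k))).Prime)).card : ℝ) <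
          (1 - ε) * (S.card / (Vz y * Real.log x) ^ k))).card : ℝ) ≤ ε * ∏ i, (x / (primorial y * q i) : ℝ) := by
  obtain ⟨η, hηd⟩ : ∃ η : ℝ, η = ε / ((k + 1) * 2 ^ (k + 1)) := ⟨_, rfl⟩
  have hk0 : (0 : ℝ) ≤ k := Nat.cast_nonneg _
  have h2k : (1 : ℝ) ≤ 2 ^ (k + 1) := one_le_pow₀ (by norm_num)
  have hη : 0 < η := by rw [hηd]; positivity
  have hηε : (k + 1) * 2 ^ (k + 1) * η = ε := by rw [hηd]; field_simp
  have hkη : (k + 1) * η ≤ ε := by
    rw [← hηε]
    have : 0 ≤ (k + 1) * η := by positivity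
    nlinarith
  have hη1 : η ≤ 1 := by nlinarith
  have hη2 : η ≤ 1 / 2 := by
    have h1 : (2 : ℝ) ≤ 2 ^ (k + 1) := by
      rw [pow_succ]
      have : (1 : ℝ) ≤ 2 ^ k := one_le_pow₀ (by norm_num)
      linarith
    have h2 : (2 : ℝ) ≤ (k + 1) * 2 ^ (k + 1) := by nlinarith
    nlinarith
  obtain ⟨K₀, hK⟩ := shf C (A + 2 * k) (W + 1) η hη hη1
  refine ⟨K₀ + 1, fun K₁ => ?_⟩
  obtain ⟨B₁, x₁, h1⟩ := hK K₁
  obtain ⟨B₂, x₂, h2⟩ := ups C (A + 2 * k) (W + 1) η hη hη1 K₁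
  obtain ⟨x₃, h3⟩ := ev_L' (Real.exp 1 + K₁ + 100)
  obtain ⟨x₄, h4⟩ := Vz_inv_small 2
  refine ⟨B₁ + B₂ + 2 * K₁ + 1, x₁ + x₂ + x₃ + x₄ + 3, fun x hx y hy1 hy2 Q hQ => ?_⟩
  have a1 := h1 x (by omega) y
  have a2 := h2 x (by omega) y
  have a3 := h3 x (by omega)
  have a4 := h4 x (by omega) y
  have hxr : (1 : ℝ) ≤ x := by exact_mod_cast (by omega : 1 ≤ x)
  have hx0 : (0 : ℝ) < x := by linarith
  obtain ⟨L, hLd⟩ : ∃ L, L = Real.log (x : ℝ) := ⟨_, rfl⟩
  rw [← hLd] at a1 a2 a3 a4 hy1 hy2 hQ ⊢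
  have he : 0 < Real.exp 1 := Real.exp_pos 1
  have hK1r : (0 : ℝ) ≤ K₁ := Nat.cast_nonneg _
  have hK0r : (0 : ℝ) ≤ K₀ := Nat.cast_nonneg _
  have hLe : Real.exp 1 ≤ L := by linarith
  have hL100 : 100 ≤ L := by linarith
  have hL0 : 0 < L := by linarith
  have hL1 : 1 ≤ L := by linarith
  have hlL : 1 ≤ Real.log L := by
    rw [← Real.log_exp 1]
    exact Real.log_le_log he hLe
  have hy1' : (K₀ : ℝ) * Real.log L ≤ y := by
    push_cast at hy1
    linarith
  have hy1n : 1 ≤ y := by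
    have : (1 : ℝ) ≤ y := by
      push_cast at hy1
      nlinarith
    exact_mod_cast this
  have hyL : (y : ℝ) ≤ L ^ 2 := by
    have h5 : Real.log L ≤ L := (Real.log_le_sub_one_of_pos hL0).trans (by linarith)
    calc (y : ℝ) ≤ K₁ * Real.log L := hy2
      _ ≤ L * L := mul_le_mul (by linarith) h5 (by linarith) hL0.le
      _ = L ^ 2 := by ring
  have hVinv := a4 hy1n hyL
  have hV := Vz_pos y
  have hV1 := Vz_le_one y
  have hVL : 1 ≤ Vz y * L := by
    rw [inv_le_iff_one_le_mul₀ hV] at hVinv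
    linarith
  have hVL0 : 0 < Vz y * L := by linarith
  have hVLL : Vz y * L ≤ L := mul_le_of_le_one_left hL0.le hV1
  obtain ⟨X₁, b1, b2⟩ := a1 hy1' hy2 Q (by
    refine le_trans ?_ hQ
    exact mul_le_mul_of_nonneg_left (pow_le_pow_right₀ hL1 (by omega)) (Nat.cast_nonneg _))
  obtain ⟨X₂, c1, c2⟩ := a2 hy2 Q (by
    refine le_trans ?_ hQ
    exact mul_le_mul_of_nonneg_left (pow_le_pow_right₀ hL1 (by omega)) (Nat.cast_nonneg _))
  refine ⟨X₁ ∪ X₂, ?_, fun c d r q hq hc hloc hr S hS hSp hSc => ?_⟩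
  · have h5 : ((X₁ ∪ X₂).card : ℝ) ≤ X₁.card + X₂.card := by exact_mod_cast card_union_le _ _
    have h6 : (Q : ℝ) / L ^ (W + 1) + Q / L ^ (W + 1) ≤ Q / L ^ W := by
      rw [← add_div, div_le_div_iff₀ (by positivity) (by positivity), pow_succ L W]
      have : (0 : ℝ) ≤ Q * L ^ W := by positivity
      nlinarith
    linarith
  obtain ⟨ρ, hρ⟩ : ∃ ρ : ℝ, ρ = (1 - η) / (Vz y * L) := ⟨_, rfl⟩
  have hρ0 : 0 < ρ := by rw [hρ]; apply div_pos _ hVL0; linarith
  have hρ1 : ρ ≤ 1 := by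
    rw [hρ, div_le_one hVL0]
    linarith
  have hρL : 1 / L ^ 2 ≤ ρ := by
    rw [hρ, div_le_div_iff₀ (by positivity) hVL0]
    nlinarith
  have hmain := vec_exact η ρ (x / L ^ (A + 2 * k)) hη.le hη1 hρ0 hρ1 S k (fun i => cls x y (q i) (r i))
    (fun i => 2 * (x / (primorial y * q i))) (fun i n s => (c i * s + (primorial y * n + d i)).Prime) (fun i => ?_)
    (fun i T hT hτ => ?_) (fun T hT hτ => ?_) S (Subset.refl _) ?_
  · have hres : (k + 1) * η * ∏ i, (2 * (x / (primorial y * q i)) : ℝ) = ε * ∏ i, (x / (primorial y * q i) : ℝ) := by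
      rw [prod_mul_distrib, prod_const, card_univ, Fintype.card_fin, ← hηε]
      ring
    rw [← hres]
    refine le_trans ?_ hmain
    have hle : (1 - ε) * ((S.card : ℝ) / (Vz y * L) ^ k) ≤ (1 - η) * (ρ ^ k * S.card) := by
      rw [hρ, div_pow]
      have h5 : 1 - ε ≤ (1 - η) ^ (k + 1) := by
        have h6 := one_add_mul_le_pow (a := -η) (by linarith) (k + 1)
        have h7 : (1 + -η) = 1 - η := by ring
        rw [h7] at h6
        push_cast at h6
        nlinarith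
      calc (1 - ε) * ((S.card : ℝ) / (Vz y * L) ^ k) ≤ (1 - η) ^ (k + 1) * ((S.card : ℝ) / (Vz y * L) ^ k) := by gcongr
        _ = _ := by rw [pow_succ]; ring
    refine (Nat.cast_le (α := ℝ)).2 (card_le_card fun n hn => ?_)
    rw [mem_filter] at hn ⊢
    refine ⟨hn.1, lt_of_le_of_lt (le_of_eq ?_) (hn.2.trans_le hle)⟩
    congr!
  · -- the number of the shifts
    apply cls_card
    · have := (mem_Ioc.1 (hq i).1).1
      omega
    · have h5 : ((primorial y * q i : ℕ) : ℝ) ≤ x := by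
        push_cast
        have h6 := primorial_le_log K₁ y L hLe hy2
        have h7 : (q i : ℝ) ≤ 2 * Q := by exact_mod_cast (mem_Ioc.1 (hq i).1).2
        calc (primorial y : ℝ) * q i ≤ L ^ (2 * K₁) * (2 * Q) := by gcongr
          _ ≤ L ^ (2 * K₁) * (L * Q) := by gcongr; linarith
          _ = Q * L ^ (2 * K₁ + 1) := by rw [pow_succ]; ring
          _ ≤ Q * L ^ (B₁ + B₂ + 2 * K₁ + 1) := by
              gcongr
              omega
          _ ≤ x := hQ
      exact_mod_cast h5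
  · -- one shift
    have hTc : (x : ℝ) ≤ T.card * L ^ (A + 2 * k) := by
      rwa [div_le_iff₀ (by positivity)] at hτ
    have h5 := b2 (q i) (hq i).1 (fun h => (hq i).2 (mem_union_left _ h)) (c i) (hc i).1 (hc i).2.1 (d i) (hc i).2.2 (hloc i) (r i)
      (fun p hp hyp hpL hpq => hr i p hp hyp (hpL.trans (pow_le_pow_right₀ hL1 (by omega))) hpq) T (hT.trans hS)
      (fun s hs => hSp s (hT hs)) hTc
    have h6 : η * (x / (primorial y * q i) : ℝ) ≤ η * (2 * (x / (primorial y * q i))) := by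
      apply mul_le_mul_of_nonneg_left _ hη.le
      have : 0 ≤ (x / (primorial y * q i) : ℝ) := by positivity
      linarith
    refine le_trans ?_ h6
    refine le_trans ((Nat.cast_le (α := ℝ)).2 (card_le_card fun n hn => ?_)) h5
    rw [mem_filter] at hn
    obtain ⟨hn1, hn2⟩ := hn
    unfold cls at hn1
    rw [mem_filter] at hn1
    rw [mem_filter]
    refine ⟨hn1.1, hn1.2.1, hn1.2.2, lt_of_le_of_lt (le_of_eq ?_) (hn2.trans_le (le_of_eq ?_))⟩
    · congr!
    · rw [hρ]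
      ring
  · -- few primes
    have hTc : (x : ℝ) ≤ T.card * L ^ (A + 2 * k) := by
      rwa [div_le_iff₀ (by positivity)] at hτ
    have h5 := c2 (q (Fin.last k)) (hq _).1 (fun h => (hq _).2 (mem_union_right _ h)) (c (Fin.last k)) (hc _).1 (hc _).2.1
      (d (Fin.last k)) (hc _).2.2 (r (Fin.last k)) T (hT.trans hS) hTc
    have h6 : η * (x / (primorial y * q (Fin.last k)) : ℝ) ≤ η * (2 * (x / (primorial y * q (Fin.last k)))) := by
      apply mul_le_mul_of_nonneg_left _ hη.le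
      have : 0 ≤ (x / (primorial y * q (Fin.last k)) : ℝ) := by positivity
      linarith
    refine le_trans ?_ h6
    refine le_trans ((Nat.cast_le (α := ℝ)).2 (card_le_card fun n hn => ?_)) h5
    rw [mem_filter] at hn
    obtain ⟨hn1, hn2⟩ := hn
    unfold cls at hn1
    rw [mem_filter] at hn1
    rw [mem_filter]
    refine ⟨hn1.1, hn1.2.1, hn1.2.2, lt_of_lt_of_le hn2 (le_of_eq ?_)⟩
    congr!
  · -- the size
    have h5 : (1 / L ^ 2) ^ k ≤ ρ ^ k := pow_le_pow_left₀ (by positivity) hρL k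
    calc (x : ℝ) / L ^ (A + 2 * k) = (x / L ^ A) * (1 / L ^ 2) ^ k := by
          rw [pow_add, div_pow, one_pow, ← pow_mul]
          field_simp
      _ ≤ S.card * ρ ^ k := by
          apply mul_le_mul _ h5 (by positivity) (Nat.cast_nonneg _)
          rwa [div_le_iff₀ (by positivity)]
      _ = _ := by ring

end Pool.Agent.T2h83.US
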